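import Pool.Agent.W_MP_c3a542_nt.Push

/-!
The extremal argument: `o m / m → κ³` and `e m / m → κ³`.
-/

set_option autoImplicit false

open Filter Topology

namespace Pool.Agent.W_MP_c3a542_nt

variable {κ : ℝ} {e o : ℕ → ℕ}

/-- The map whose cluster points are considered. -/
noncomputable def FF (e o : ℕ → ℕ) (p : ℕ × ℕ) : ℝ × ℝ × ℝ :=
  ((o p.1 : ℝ) / p.1, (e p.1 : ℝ) / p.1, (p.1 : ℝ) / N p.2)

/-- The set of all limit points. -/
def QQ (e o : ℕ → ℕ) (κ : ℝ) : Set (ℝ × ℝ × ℝ) :=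
  {z | ∃ U : Ultrafilter (ℕ × ℕ), Pt e o κ U z.1 z.2.1 z.2.2}

theorem QQ_eq : QQ e o κ = {z | MapClusterPt z (comap Prod.snd atTop) (FF e o)} ∩
    {z | 1 ≤ z.2.2 ∧ z.2.2 * κ ≤ 1} := by
  ext z
  constructor
  · rintro ⟨U, Q⟩
    refine ⟨?_, Q.P.r1, Q.P.r2⟩
    rw [Set.mem_ofPred_eq, mapClusterPt_iff_ultrafilter]
    exact ⟨U, tendsto_iff_comap.1 Q.P.lev, Q.ho.prodMk_nhds (Q.he.prodMk_nhds Q.P.pos)⟩
  · rintro ⟨h, h1, h2⟩
    rw [Set.mem_ofPred_eq, mapClusterPt_iff_ultrafilter] at h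
    obtain ⟨U, hU, hz⟩ := h
    have a1 := (continuous_fst.tendsto z).comp hz
    have a2 := (continuous_snd.tendsto z).comp hz
    have a3 := (continuous_fst.tendsto z.2).comp a2
    have a4 := (continuous_snd.tendsto z.2).comp a2
    exact ⟨U, ⟨⟨tendsto_iff_comap.2 hU, a4, h1, h2⟩, a1, a3⟩⟩

theorem Sett.QQ_compact (S : Sett e o κ) : IsCompact (QQ e o κ) := by
  have hc : IsCompact ((Set.Icc (0 : ℝ) 1) ×ˢ ((Set.Icc (0 : ℝ) 1) ×ˢ (Set.Icc (1 : ℝ) 2))) :=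
    isCompact_Icc.prod (isCompact_Icc.prod isCompact_Icc)
  refine hc.of_isClosed_subset ?_ ?_
  · rw [QQ_eq]
    have c1 : IsClosed {z : ℝ × ℝ × ℝ | 1 ≤ z.2.2} := isClosed_le continuous_const (by fun_prop)
    have c2 : IsClosed {z : ℝ × ℝ × ℝ | z.2.2 * κ ≤ 1} :=
      isClosed_le (by fun_prop) continuous_const
    exact IsClosed.inter isClosed_setOfPred_clusterPt (c1.inter c2)
  · rintro z ⟨U, Q⟩
    have h1 : z.1 ∈ Set.Icc (0 : ℝ) 1 :=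
      isClosed_Icc.mem_of_tendsto Q.ho (Eventually.of_forall (fun p => S.ratio_o p.1))
    have h2 : z.2.1 ∈ Set.Icc (0 : ℝ) 1 :=
      isClosed_Icc.mem_of_tendsto Q.he (Eventually.of_forall (fun p => S.ratio_e p.1))
    refine ⟨h1, h2, Q.P.r1, ?_⟩
    have := Q.P.r2
    have := Q.P.r1
    nlinarith [S.k1]

theorem Sett.QQ_nonempty (S : Sett e o κ) : (QQ e o κ).Nonempty := by
  let U : Ultrafilter (ℕ × ℕ) := (Ultrafilter.of (atTop : Filter ℕ)).map (fun k => (N k, k))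
  have hU : ((Ultrafilter.of (atTop : Filter ℕ) : Ultrafilter ℕ) : Filter ℕ) ≤ atTop :=
    Ultrafilter.of_le _
  have P : Pos κ U 1 := by
    refine ⟨?_, ?_, le_rfl, by linarith [S.k2]⟩
    · change Tendsto (fun p : ℕ × ℕ => p.2) (Filter.map (fun k => (N k, k)) _) atTop
      rw [tendsto_map'_iff]
      exact hU
    · change Tendsto (fun p : ℕ × ℕ => (p.1 : ℝ) / N p.2) (Filter.map (fun k => (N k, k)) _) _
      rw [tendsto_map'_iff]
      refine (tendsto_const_nhds (x := (1 : ℝ))).congr (fun k => ?_)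
      have : (N k : ℝ) ≠ 0 := by exact_mod_cast (N_pos k).ne'
      simp only [Function.comp_apply]
      field_simp
  obtain ⟨α, β, Q⟩ := S.exists_pt U P
  exact ⟨(α, β, 1), U, Q⟩

theorem Sett.lip_o (S : Sett e o κ) (a b : ℕ) : |(o a : ℝ) - o b| ≤ |(a : ℝ) - b| := by
  rcases le_total a b with h | h
  · have h1 := S.eo.o_mono h
    have h2 : (o a : ℝ) ≤ o b := by exact_mod_cast h1.1
    have h3 : (a : ℝ) + o b ≤ b + o a := by exact_mod_cast h1.2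
    have h4 : (a : ℝ) ≤ b := by exact_mod_cast h
    rw [abs_of_nonpos (by linarith), abs_of_nonpos (by linarith)]
    linarith
  · have h1 := S.eo.o_mono h
    have h2 : (o b : ℝ) ≤ o a := by exact_mod_cast h1.1
    have h3 : (b : ℝ) + o a ≤ a + o b := by exact_mod_cast h1.2
    have h4 : (b : ℝ) ≤ a := by exact_mod_cast h
    rw [abs_of_nonneg (by linarith), abs_of_nonneg (by linarith)]
    linarith

theorem Sett.core (S : Sett e o κ) (c : ℝ)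
    (hO : ∀ (U : Ultrafilter (ℕ × ℕ)) (β r αx βx rx αy βy ry : ℝ), Pt e o κ U c β r →
      Pt e o κ (U.map (fx e)) αx βx rx → Pt e o κ (U.map (fy e)) αy βy ry → αx = c ∧ βy = c)
    (hE : ∀ (U : Ultrafilter (ℕ × ℕ)) (α r αs βs rs αt βt rt : ℝ), Pt e o κ U α c r →
      Pt e o κ (U.map (fs o)) αs βs rs → Pt e o κ (U.map (ft o)) αt βt rt → αs = c ∧ αt = c)
    (hne : ∃ (U : Ultrafilter (ℕ × ℕ)) (β r : ℝ), Pt e o κ U c β r) : c = κ ^ 3 := by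
  have hk := S.kpos
  have hk3 : 0 < κ ^ 3 := by positivity
  -- the maximal position
  have hcomp : IsCompact (QQ e o κ ∩ {z | z.1 = c}) :=
    S.QQ_compact.inter_right (isClosed_eq continuous_fst continuous_const)
  have hnon : (QQ e o κ ∩ {z | z.1 = c}).Nonempty := by
    obtain ⟨U, β, r, Q⟩ := hne
    exact ⟨(c, β, r), ⟨U, Q⟩, rfl⟩
  obtain ⟨z0, ⟨⟨U0, Q0⟩, hz0⟩, hmax⟩ := hcomp.exists_isMaxOn hnon
    (f := fun z : ℝ × ℝ × ℝ => z.2.2) (by fun_prop)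
  simp only [Set.mem_ofPred_eq] at hz0
  rw [hz0] at Q0
  set R := z0.2.2 with hR
  have hRpos : 0 < R := by linarith [Q0.P.r1]
  have hA : ∀ (U : Ultrafilter (ℕ × ℕ)) (β r : ℝ), Pt e o κ U c β r → r ≤ R := by
    intro U β r Q
    exact hmax (show ((c, β, r) : ℝ × ℝ × ℝ) ∈ QQ e o κ ∩ {z | z.1 = c} from ⟨⟨U, Q⟩, rfl⟩)
  -- images of an `e`-extremal point
  have hB1 : ∀ (U : Ultrafilter (ℕ × ℕ)) (α r : ℝ), Pt e o κ U α c r →
      (∃ βs, Pt e o κ (U.map (fs o)) c βs (α * r / κ ^ 3)) ∧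
      (∃ βt, Pt e o κ (U.map (ft o)) c βt ((1 - α) * r / κ)) := by
    intro U α r Q
    obtain ⟨αs, βs, Qs⟩ := S.exists_pt _ (Q.poss S)
    obtain ⟨αt, βt, Qt⟩ := S.exists_pt _ (Q.post S)
    obtain ⟨h1, h2⟩ := hE U α r _ _ _ _ _ _ Q Qs Qt
    subst h1
    subst h2
    exact ⟨⟨βs, Qs⟩, ⟨βt, Qt⟩⟩
  have hB : ∀ (U : Ultrafilter (ℕ × ℕ)) (α r : ℝ), Pt e o κ U α c r → r ≤ R := by
    intro U α r Q
    obtain ⟨⟨βs, Qs⟩, ⟨βt, Qt⟩⟩ := hB1 U α r Q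
    have h1 := hA _ _ _ Qs
    have h2 := hA _ _ _ Qt
    rw [div_le_iff₀ hk3] at h1
    rw [div_le_iff₀ hk] at h2
    have h3 := S.k3
    nlinarith
  have hA' : ∀ (U : Ultrafilter (ℕ × ℕ)) (β : ℝ), Pt e o κ U c β R →
      β = κ ^ 3 ∧ (∃ βx rx, Pt e o κ (U.map (fx e)) c βx rx) ∧
      (∃ αy, Pt e o κ (U.map (fy e)) αy c R) := by
    intro U β Q
    obtain ⟨αx, βx, Qx⟩ := S.exists_pt _ (Q.posx S)
    obtain ⟨αy, βy, Qy⟩ := S.exists_pt _ (Q.posy S)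
    obtain ⟨h1, h2⟩ := hO U β R _ _ _ _ _ _ Q Qx Qy
    subst h1
    subst h2
    have h3 := hA _ _ _ Qx
    have h4 := hB _ _ _ Qy
    rw [div_le_iff₀ hk3] at h3
    rw [div_le_iff₀ hk] at h4
    have h5 : β ≤ κ ^ 3 := by
      by_contra hc
      have := mul_lt_mul_of_pos_right (not_le.1 hc) hRpos
      linarith
    have h6 : 1 - β ≤ κ := by
      by_contra hc
      have := mul_lt_mul_of_pos_right (not_le.1 hc) hRpos
      linarith
    have h7 : β = κ ^ 3 := by linarith [S.k3]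
    refine ⟨h7, ⟨βx, _, Qx⟩, αy, ?_⟩
    have h8 : (1 - β) * R / κ = R := by
      rw [h7, S.k3]
      field_simp
      ring
    rw [h8] at Qy
    exact Qy
  have hB' : ∀ (U : Ultrafilter (ℕ × ℕ)) (α : ℝ), Pt e o κ U α c R →
      α = κ ^ 3 ∧ (∃ βt, Pt e o κ (U.map (ft o)) c βt R) := by
    intro U α Q
    obtain ⟨⟨βs, Qs⟩, ⟨βt, Qt⟩⟩ := hB1 U α R Q
    have h3 := hA _ _ _ Qs
    have h4 := hA _ _ _ Qt
    rw [div_le_iff₀ hk3] at h3
    rw [div_le_iff₀ hk] at h4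
    have h5 : α ≤ κ ^ 3 := by
      by_contra hc
      have := mul_lt_mul_of_pos_right (not_le.1 hc) hRpos
      linarith
    have h6 : 1 - α ≤ κ := by
      by_contra hc
      have := mul_lt_mul_of_pos_right (not_le.1 hc) hRpos
      linarith
    have h7 : α = κ ^ 3 := by linarith [S.k3]
    refine ⟨h7, βt, ?_⟩
    have h8 : (1 - α) * R / κ = R := by
      rw [h7, S.k3]
      field_simp
      ring
    rw [h8] at Qt
    exact Qt
  -- the chain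
  obtain ⟨hβ0, ⟨βx, rx, Qx⟩, ⟨αy, Qy⟩⟩ := hA' U0 _ Q0
  obtain ⟨hαy, ⟨βt, Qt⟩⟩ := hB' _ _ Qy
  obtain ⟨hβt, _, ⟨αy2, Qy2⟩⟩ := hA' _ _ Qt
  obtain ⟨hαy2, _⟩ := hB' _ _ Qy2
  -- translate along `U0`
  have t1 : Tendsto (fun p : ℕ × ℕ => (o (e p.1) : ℝ) / (e p.1 : ℕ)) U0 (𝓝 c) :=
    tendsto_map'_iff.1 Qx.ho
  have t2 : Tendsto (fun p : ℕ × ℕ => (e p.1 : ℝ) / p.1) U0 (𝓝 (κ ^ 3)) := by
    rw [← hβ0]; exact Q0.he
  have u1 : Tendsto (fun p : ℕ × ℕ => ((fy e p).1 : ℝ) / p.1) U0 (𝓝 κ) := by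
    have h := Q0.tendy S
    rw [hβ0] at h
    have h1 : 1 - κ ^ 3 = κ := by linarith [S.k3]
    rw [h1] at h
    exact h
  have u2 : Tendsto (fun p : ℕ × ℕ => ((ft o (fy e p)).1 : ℝ) / (fy e p).1) U0 (𝓝 κ) := by
    have h := Qy.tendt S
    rw [hαy] at h
    have h1 : 1 - κ ^ 3 = κ := by linarith [S.k3]
    rw [h1] at h
    exact tendsto_map'_iff.1 h
  have u3 : Tendsto (fun p : ℕ × ℕ => ((fy e (ft o (fy e p))).1 : ℝ) / (ft o (fy e p)).1) U0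
      (𝓝 κ) := by
    have h := Qt.tendy S
    rw [hβt] at h
    have h1 : 1 - κ ^ 3 = κ := by linarith [S.k3]
    rw [h1] at h
    exact tendsto_map'_iff.1 (tendsto_map'_iff.1 h)
  have u4 : Tendsto (fun p : ℕ × ℕ => (o (fy e (ft o (fy e p))).1 : ℝ) /
      (fy e (ft o (fy e p))).1) U0 (𝓝 (κ ^ 3)) := by
    have h := Qy2.ho
    rw [hαy2] at h
    exact tendsto_map'_iff.1 (tendsto_map'_iff.1 (tendsto_map'_iff.1 h))
  have ev0 := Q0.P.ev 1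
  have evx : ∀ᶠ p in (U0 : Filter (ℕ × ℕ)), 1 ≤ e p.1 := tendsto_map'_iff.1 Qx.P.infty |>.eventually_ge_atTop 1 |>.mono
    (fun p hp => by
      have : (1 : ℝ) ≤ (e p.1 : ℕ) := hp
      exact_mod_cast this)
  have evy : ∀ᶠ p in (U0 : Filter (ℕ × ℕ)), 1 ≤ (fy e p).1 := tendsto_map'_iff.1 Qy.P.infty |>.eventually_ge_atTop 1 |>.mono
    (fun p hp => by
      have : (1 : ℝ) ≤ ((fy e p).1 : ℕ) := hp
      exact_mod_cast this)
  have evt : ∀ᶠ p in (U0 : Filter (ℕ × ℕ)), 1 ≤ (ft o (fy e p)).1 :=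
    tendsto_map'_iff.1 (tendsto_map'_iff.1 Qt.P.infty) |>.eventually_ge_atTop 1 |>.mono
    (fun p hp => by
      have : (1 : ℝ) ≤ ((ft o (fy e p)).1 : ℕ) := hp
      exact_mod_cast this)
  have evy2 : ∀ᶠ p in (U0 : Filter (ℕ × ℕ)), 1 ≤ (fy e (ft o (fy e p))).1 :=
    tendsto_map'_iff.1 (tendsto_map'_iff.1 (tendsto_map'_iff.1 Qy2.P.infty))
      |>.eventually_ge_atTop 1 |>.mono
    (fun p hp => by
      have : (1 : ℝ) ≤ ((fy e (ft o (fy e p))).1 : ℕ) := hp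
      exact_mod_cast this)
  -- everything relative to `m`
  have v1 : Tendsto (fun p : ℕ × ℕ => ((fy e (ft o (fy e p))).1 : ℝ) / p.1) U0 (𝓝 (κ ^ 3)) := by
    have h := (u3.mul u2).mul u1
    have h1 : κ * κ * κ = κ ^ 3 := by ring
    rw [h1] at h
    refine h.congr' ?_
    filter_upwards [ev0, evy, evt] with p h2 h3 h4
    have e1 : (p.1 : ℝ) ≠ 0 := by exact_mod_cast (by omega : p.1 ≠ 0)
    have e2 : ((fy e p).1 : ℝ) ≠ 0 := by exact_mod_cast (by omega : (fy e p).1 ≠ 0)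
    have e3 : ((ft o (fy e p)).1 : ℝ) ≠ 0 := by
      exact_mod_cast (by omega : (ft o (fy e p)).1 ≠ 0)
    field_simp
  have w1 : Tendsto (fun p : ℕ × ℕ => (o (e p.1) : ℝ) / p.1) U0 (𝓝 (c * κ ^ 3)) := by
    refine (t1.mul t2).congr' ?_
    filter_upwards [ev0, evx] with p h2 h3
    have e1 : (p.1 : ℝ) ≠ 0 := by exact_mod_cast (by omega : p.1 ≠ 0)
    have e2 : (e p.1 : ℝ) ≠ 0 := by exact_mod_cast (by omega : e p.1 ≠ 0)
    field_simp
  have w2 : Tendsto (fun p : ℕ × ℕ => (o (fy e (ft o (fy e p))).1 : ℝ) / p.1) U0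
      (𝓝 (κ ^ 3 * κ ^ 3)) := by
    refine (u4.mul v1).congr' ?_
    filter_upwards [ev0, evy2] with p h2 h3
    have e1 : (p.1 : ℝ) ≠ 0 := by exact_mod_cast (by omega : p.1 ≠ 0)
    have e2 : ((fy e (ft o (fy e p))).1 : ℝ) ≠ 0 := by
      exact_mod_cast (by omega : (fy e (ft o (fy e p))).1 ≠ 0)
    field_simp
  have w3 : Tendsto (fun p : ℕ × ℕ => |(e p.1 : ℝ) / p.1 -
      ((fy e (ft o (fy e p))).1 : ℝ) / p.1|) U0 (𝓝 0) := by
    have h := (t2.sub v1).abs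
    rwa [sub_self, abs_zero] at h
  have w4 : Tendsto (fun p : ℕ × ℕ => |(o (e p.1) : ℝ) / p.1 -
      (o (fy e (ft o (fy e p))).1 : ℝ) / p.1|) U0 (𝓝 0) := by
    refine squeeze_zero (fun _ => abs_nonneg _) (fun p => ?_) w3
    rw [← sub_div, ← sub_div, abs_div, abs_div]
    exact div_le_div_of_nonneg_right (S.lip_o _ _) (abs_nonneg _)
  have w5 := (w1.sub w2).abs
  have w6 := tendsto_nhds_unique w4 w5
  have w7 : c * κ ^ 3 - κ ^ 3 * κ ^ 3 = 0 := abs_eq_zero.1 w6.symm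
  have w8 : (c - κ ^ 3) * κ ^ 3 = 0 := by linarith
  rcases mul_eq_zero.1 w8 with h | h
  · linarith
  · exact absurd h hk3.ne'

theorem convex_eq {b c x y : ℝ} (h0 : 0 < b) (h1 : 0 < 1 - b) (h : c = b * x + (1 - b) * y)
    (hx : c ≤ x) (hy : c ≤ y) : x = c ∧ y = c := by
  have h2 : 0 ≤ b * (x - c) := mul_nonneg h0.le (by linarith)
  have h3 : 0 ≤ (1 - b) * (y - c) := mul_nonneg h1.le (by linarith)
  have h4 : b * (x - c) + (1 - b) * (y - c) = 0 := by linarith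
  have h5 : b * (x - c) = 0 := by linarith
  have h6 : (1 - b) * (y - c) = 0 := by linarith
  rcases mul_eq_zero.1 h5 with h7 | h7
  · exact absurd h7 h0.ne'
  · rcases mul_eq_zero.1 h6 with h8 | h8
    · exact absurd h8 h1.ne'
    · constructor <;> linarith

theorem convex_eq' {b c x y : ℝ} (h0 : 0 < b) (h1 : 0 < 1 - b) (h : c = b * x + (1 - b) * y)
    (hx : x ≤ c) (hy : y ≤ c) : x = c ∧ y = c := by
  have := convex_eq (c := -c) (x := -x) (y := -y) h0 h1 (by rw [h]; ring) (by linarith)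
    (by linarith)
  constructor <;> linarith [this.1, this.2]

theorem Sett.alpha_ge (S : Sett e o κ) (U : Ultrafilter (ℕ × ℕ)) (α β r : ℝ)
    (Q : Pt e o κ U α β r) : κ ^ 3 ≤ α := by
  obtain ⟨z0, ⟨U0, Q0⟩, hmin⟩ := S.QQ_compact.exists_isMinOn S.QQ_nonempty
    (f := fun z : ℝ × ℝ × ℝ => z.1) (by fun_prop)
  set L := z0.1 with hL
  have hA : ∀ (U : Ultrafilter (ℕ × ℕ)) (α β r : ℝ), Pt e o κ U α β r → L ≤ α := by
    intro U α β r Q
    exact hmin (show ((α, β, r) : ℝ × ℝ × ℝ) ∈ QQ e o κ from ⟨U, Q⟩)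
  have hB : ∀ (U : Ultrafilter (ℕ × ℕ)) (α β r : ℝ), Pt e o κ U α β r → L ≤ β := by
    intro U α β r Q
    obtain ⟨αs, βs, Qs⟩ := S.exists_pt _ (Q.poss S)
    obtain ⟨αt, βt, Qt⟩ := S.exists_pt _ (Q.post S)
    have h1 := Q.rel_e S Qs Qt
    have h2 := hA _ _ _ _ Qs
    have h3 := hA _ _ _ _ Qt
    have h4 := Q.alpha_pos S
    nlinarith
  have h := S.core L
    (fun U β r αx βx rx αy βy ry Q Qx Qy => by
      have h1 := Q.rel_o S Qx Qy
      have h4 := Q.beta_pos S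
      exact convex_eq h4.1 h4.2 h1 (hA _ _ _ _ Qx) (hB _ _ _ _ Qy))
    (fun U α r αs βs rs αt βt rt Q Qs Qt => by
      have h1 := Q.rel_e S Qs Qt
      have h4 := Q.alpha_pos S
      exact convex_eq h4.1 h4.2 h1 (hA _ _ _ _ Qs) (hA _ _ _ _ Qt))
    ⟨U0, _, _, Q0⟩
  rw [← h]
  exact hA _ _ _ _ Q

theorem Sett.alpha_le (S : Sett e o κ) (U : Ultrafilter (ℕ × ℕ)) (α β r : ℝ)
    (Q : Pt e o κ U α β r) : α ≤ κ ^ 3 := by
  obtain ⟨z0, ⟨U0, Q0⟩, hmax⟩ := S.QQ_compact.exists_isMaxOn S.QQ_nonempty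
    (f := fun z : ℝ × ℝ × ℝ => z.1) (by fun_prop)
  set L := z0.1 with hL
  have hA : ∀ (U : Ultrafilter (ℕ × ℕ)) (α β r : ℝ), Pt e o κ U α β r → α ≤ L := by
    intro U α β r Q
    exact hmax (show ((α, β, r) : ℝ × ℝ × ℝ) ∈ QQ e o κ from ⟨U, Q⟩)
  have hB : ∀ (U : Ultrafilter (ℕ × ℕ)) (α β r : ℝ), Pt e o κ U α β r → β ≤ L := by
    intro U α β r Q
    obtain ⟨αs, βs, Qs⟩ := S.exists_pt _ (Q.poss S)
    obtain ⟨αt, βt, Qt⟩ := S.exists_pt _ (Q.post S)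
    have h1 := Q.rel_e S Qs Qt
    have h2 := hA _ _ _ _ Qs
    have h3 := hA _ _ _ _ Qt
    have h4 := Q.alpha_pos S
    nlinarith
  have h := S.core L
    (fun U β r αx βx rx αy βy ry Q Qx Qy => by
      have h1 := Q.rel_o S Qx Qy
      have h4 := Q.beta_pos S
      exact convex_eq' h4.1 h4.2 h1 (hA _ _ _ _ Qx) (hB _ _ _ _ Qy))
    (fun U α r αs βs rs αt βt rt Q Qs Qt => by
      have h1 := Q.rel_e S Qs Qt
      have h4 := Q.alpha_pos S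
      exact convex_eq' h4.1 h4.2 h1 (hA _ _ _ _ Qs) (hA _ _ _ _ Qt))
    ⟨U0, _, _, Q0⟩
  rw [← h]
  exact hA _ _ _ _ Q

end Pool.Agent.W_MP_c3a542_nt
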