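import Pool.Agent.W_MP_c3a542_nt.Table

/-!
The parity-perturbed sequence in terms of `e` and `o`.
-/

set_option autoImplicit false

namespace Pool.Agent.W_MP_c3a542_nt

/-- The sequence `b`, by parity of the index. -/
def bC (n : ℕ) : ℤ := if n % 2 = 0 then 2 * (eC (n / 2) : ℤ) + 1 else 2 * (oC (n / 2) : ℤ) + 1

theorem bC_even (m : ℕ) : bC (2 * m) = 2 * (eC m : ℤ) + 1 := by
  have h1 : 2 * m % 2 = 0 := by omega
  have h2 : 2 * m / 2 = m := by omega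
  rw [bC, if_pos h1, h2]

theorem bC_odd (m : ℕ) : bC (2 * m + 1) = 2 * (oC m : ℤ) + 1 := by
  have h1 : ¬ (2 * m + 1) % 2 = 0 := by omega
  have h2 : (2 * m + 1) / 2 = m := by omega
  rw [bC, if_neg h1, h2]

theorem bC_one : bC 1 = 1 := rfl

theorem bC_two : bC 2 = 1 := rfl

theorem bC_rec (n : ℕ) (hn : 3 ≤ n) :
    1 ≤ bC (n - 1) ∧ bC (n - 1) ≤ (n : ℤ) - 1 ∧ 1 ≤ (n : ℤ) - bC (n - 1) ∧
      (n : ℤ) - bC (n - 1) ≤ (n : ℤ) - 1 ∧
      bC n = bC (bC (n - 1)).toNat + bC ((n : ℤ) - bC (n - 1)).toNat + (-1) ^ n := by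
  rcases Nat.mod_two_eq_zero_or_one n with h | h
  · obtain ⟨m, rfl⟩ : ∃ m, n = 2 * m + 2 := ⟨n / 2 - 1, by omega⟩
    have h1 : 2 * m + 2 - 1 = 2 * m + 1 := by omega
    have h2 := eo_C.o_le m
    have h3 := eo_C.he (m + 1) (by omega)
    have h4 : m + 1 - 1 = m := by omega
    rw [h4] at h3
    have h5 : (2 * (oC m : ℤ) + 1).toNat = 2 * oC m + 1 := by omega
    have h6 : (((2 * m + 2 : ℕ) : ℤ) - (2 * (oC m : ℤ) + 1)).toNat = 2 * (m - oC m) + 1 := by omega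
    have h7 : (-1 : ℤ) ^ (2 * m + 2) = 1 := by
      rw [show 2 * m + 2 = 2 * (m + 1) by ring, pow_mul]; norm_num
    rw [h1, bC_odd, h5, h6, bC_odd, bC_odd, h7, show 2 * m + 2 = 2 * (m + 1) by ring, bC_even, h3]
    refine ⟨by omega, by push_cast; omega, by push_cast; omega, by omega, ?_⟩
    push_cast
    ring
  · obtain ⟨m, rfl⟩ : ∃ m, n = 2 * m + 1 := ⟨n / 2, by omega⟩
    have h1 : 2 * m + 1 - 1 = 2 * m := by omega
    have h2 := eo_C.e_lt m (by omega)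
    have h3 := eo_C.ho m (by omega)
    have h5 : (2 * (eC m : ℤ) + 1).toNat = 2 * eC m + 1 := by omega
    have h6 : (((2 * m + 1 : ℕ) : ℤ) - (2 * (eC m : ℤ) + 1)).toNat = 2 * (m - eC m) := by omega
    have h7 : (-1 : ℤ) ^ (2 * m + 1) = -1 := by
      rw [pow_succ, pow_mul]; norm_num
    rw [h1, bC_even, h5, h6, bC_odd, bC_odd, bC_even, h7, h3]
    refine ⟨by omega, by push_cast; omega, by push_cast; omega, by omega, ?_⟩
    push_cast
    ring

end Pool.Agent.W_MP_c3a542_nt
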