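import Pool.Agent.W_MP_c3a542_nt.Core
import Pool.Agent.W_MP_c3a542_nt.Seq

/-!
The limit of `b n / n`.
-/

set_option autoImplicit false

open Filter Topology

namespace Pool.Agent.W_MP_c3a542_nt

theorem oC_landmark (k : ℕ) : N k + 1 ≤ oC (N (k + 3)) ∧ oC (N (k + 3)) ≤ N k + 2 := by
  have h := fct_all eo_C fctC0 fctC1 fctC2 k
  rcases Nat.mod_two_eq_zero_or_one k with hk | hk
  · have := (h.1 hk).o0
    omega
  · have := (h.2 hk).o0
    omega

theorem land_of (κ : ℝ) (h : κ ^ 3 = 1 - κ) (h1 : 0.6823 < κ) (h2 : κ < 0.6824) (g : ℕ → ℕ)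
    (hg : ∀ k, N k + 1 ≤ g (N (k + 3)) ∧ g (N (k + 3)) ≤ N k + 2) :
    Tendsto (fun k => (g (N k) : ℝ) / N k) atTop (𝓝 (κ ^ 3)) := by
  rw [← tendsto_add_atTop_iff_nat 3]
  have t := tendsto_prev3 κ h h1 h2
  rw [← tendsto_add_atTop_iff_nat 3] at t
  have t2 : Tendsto (fun k => (2 : ℝ) / N (k + 3)) atTop (𝓝 0) :=
    Tendsto.div_atTop tendsto_const_nhds (tendsto_N.comp (tendsto_add_atTop_nat 3))
  have t3 := t.add t2
  rw [add_zero] at t3
  refine tendsto_of_tendsto_of_tendsto_of_le_of_le t t3 (fun k => ?_) (fun k => ?_)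
  · have e3 : k + 3 - 3 = k := by omega
    simp only [e3]
    apply div_le_div_of_nonneg_right _ (by positivity)
    exact_mod_cast (by have := (hg k).1; omega : N k ≤ g (N (k + 3)))
  · have e3 : k + 3 - 3 = k := by omega
    simp only [e3]
    rw [← add_div]
    apply div_le_div_of_nonneg_right _ (by positivity)
    exact_mod_cast (hg k).2

theorem sett_C (κ : ℝ) (h : κ ^ 3 = 1 - κ) (h1 : 0.6823 < κ) (h2 : κ < 0.6824) :
    Sett eC oC κ where
  eo := eo_C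
  se := ⟨fun _ _ hi hij => eo_C.e_mono hi hij, fun i hi => by
    have := eo_C.e_lt i hi; omega, land_of κ h h1 h2 eC eC_landmark⟩
  so := ⟨fun _ _ _ hij => eo_C.o_mono hij, fun i _ => eo_C.o_le i,
    land_of κ h h1 h2 oC oC_landmark⟩
  e0 := rfl
  k3 := h
  k1 := h1
  k2 := h2

/-- The level of `m`. -/
def kk (m : ℕ) : ℕ := Nat.findGreatest (fun k => N k ≤ m) m

theorem kk_spec (m : ℕ) (hm : 21 ≤ m) : N (kk m) ≤ m ∧ m < N (kk m + 1) := by
  constructor
  · have h0 : N 0 ≤ m := hm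
    exact Nat.findGreatest_spec (P := fun k => N k ≤ m) (Nat.zero_le m) h0
  · by_contra hc
    have hc' : N (kk m + 1) ≤ m := not_lt.1 hc
    have h1 := N_ge (kk m + 1)
    have h2 := Nat.findGreatest_is_greatest (P := fun k => N k ≤ m) (n := m) (k := kk m + 1)
      (Nat.lt_succ_self _) (by omega)
    exact h2 hc'

theorem tendsto_kk : Tendsto kk atTop atTop := by
  rw [tendsto_atTop]
  intro K
  filter_upwards [eventually_ge_atTop (N K)] with m hm
  have h1 := N_ge K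
  exact Nat.le_findGreatest (P := fun k => N k ≤ m) (by omega) hm

theorem pos_ratio (m : ℕ) : (m : ℝ) / N (kk m) ∈ Set.Icc (0 : ℝ) 2 := by
  have hN : (0 : ℝ) < N (kk m) := by exact_mod_cast N_pos _
  refine ⟨by positivity, ?_⟩
  rw [div_le_iff₀ hN]
  rcases Nat.lt_or_ge m 21 with h | h
  · have := N_ge (kk m)
    exact_mod_cast (by omega : m ≤ 2 * N (kk m))
  · have h1 := (kk_spec m h).2
    have h2 := N_two (kk m)
    exact_mod_cast (by omega : m ≤ 2 * N (kk m))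

variable {κ : ℝ} {e o : ℕ → ℕ}

theorem Sett.pt_of (S : Sett e o κ) (V : Ultrafilter ℕ) (hV : (V : Filter ℕ) ≤ atTop) :
    ∃ α β r, Pt e o κ (V.map (fun m => (m, kk m))) α β r := by
  obtain ⟨r, _, hr⟩ := exists_lim V (fun m : ℕ => (m : ℝ) / N (kk m)) 0 2 pos_ratio
  have h21 : ∀ᶠ m in (V : Filter ℕ), 21 ≤ m := hV (eventually_ge_atTop 21)
  have hk : Tendsto kk V atTop := tendsto_kk.mono_left hV
  have P : Pos κ (V.map (fun m => (m, kk m)) : Ultrafilter (ℕ × ℕ)) r := by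
    refine ⟨?_, ?_, ?_, ?_⟩
    · change Tendsto _ (Filter.map (fun m => (m, kk m)) V) _
      rw [tendsto_map'_iff]
      exact hk
    · change Tendsto _ (Filter.map (fun m => (m, kk m)) V) _
      rw [tendsto_map'_iff]
      exact hr
    · refine ge_of_tendsto hr ?_
      filter_upwards [h21] with m hm
      rw [le_div_iff₀ (by exact_mod_cast N_pos _), one_mul]
      exact_mod_cast (kk_spec m hm).1
    · have hn := (tendsto_next κ S.k3 S.k1 S.k2).comp hk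
      have h1 : r ≤ κ⁻¹ := by
        refine le_of_tendsto_of_tendsto hr hn ?_
        filter_upwards [h21] with m hm
        have hN : (0 : ℝ) < N (kk m) := by exact_mod_cast N_pos _
        simp only [Function.comp_apply]
        apply div_le_div_of_nonneg_right _ hN.le
        exact_mod_cast (kk_spec m hm).2.le
      have hk0 := S.kpos
      calc r * κ ≤ κ⁻¹ * κ := mul_le_mul_of_nonneg_right h1 hk0.le
        _ = 1 := inv_mul_cancel₀ hk0.ne'
  obtain ⟨α, β, Q⟩ := S.exists_pt _ P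
  exact ⟨α, β, r, Q⟩

theorem Sett.tendsto_o (S : Sett e o κ) :
    Tendsto (fun m : ℕ => (o m : ℝ) / m) atTop (𝓝 (κ ^ 3)) := by
  rw [tendsto_iff_ultrafilter]
  intro V hV
  obtain ⟨α, β, r, Q⟩ := S.pt_of V hV
  have h1 := le_antisymm (S.alpha_le _ _ _ _ Q) (S.alpha_ge _ _ _ _ Q)
  have h2 := Q.ho
  rw [h1] at h2
  exact tendsto_map'_iff.1 h2

theorem Sett.tendsto_e (S : Sett e o κ) :
    Tendsto (fun m : ℕ => (e m : ℝ) / m) atTop (𝓝 (κ ^ 3)) := by
  rw [tendsto_iff_ultrafilter]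
  intro V hV
  obtain ⟨α, β, r, Q⟩ := S.pt_of V hV
  obtain ⟨αs, βs, Qs⟩ := S.exists_pt _ (Q.poss S)
  obtain ⟨αt, βt, Qt⟩ := S.exists_pt _ (Q.post S)
  have h1 := Q.rel_e S Qs Qt
  have h3 := le_antisymm (S.alpha_le _ _ _ _ Qs) (S.alpha_ge _ _ _ _ Qs)
  have h4 := le_antisymm (S.alpha_le _ _ _ _ Qt) (S.alpha_ge _ _ _ _ Qt)
  have h5 : β = κ ^ 3 := by rw [h1, h3, h4]; ring
  have h2 := Q.he
  rw [h5] at h2
  exact tendsto_map'_iff.1 h2

/-- If `o m / m` and `e m / m` tend to `ρ`, so does `b n / n`. -/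
theorem tendsto_b (ρ : ℝ) (he : Tendsto (fun m : ℕ => (eC m : ℝ) / m) atTop (𝓝 ρ))
    (ho : Tendsto (fun m : ℕ => (oC m : ℝ) / m) atTop (𝓝 ρ)) :
    Tendsto (fun n : ℕ => (bC n : ℝ) / n) atTop (𝓝 ρ) := by
  have hinv : Tendsto (fun m : ℕ => 1 / (m : ℝ)) atTop (𝓝 0) :=
    Tendsto.div_atTop tendsto_const_nhds tendsto_natCast_atTop_atTop
  -- even indices
  have h1 : Tendsto (fun m : ℕ => (bC (2 * m) : ℝ) / ((2 * m : ℕ) : ℝ)) atTop (𝓝 ρ) := by
    have h := he.add (hinv.div_const 2)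
    rw [zero_div, add_zero] at h
    refine h.congr' ?_
    filter_upwards [eventually_ge_atTop 1] with m hm
    have e1 : (m : ℝ) ≠ 0 := by exact_mod_cast (by omega : m ≠ 0)
    rw [bC_even]
    push_cast
    field_simp
  -- odd indices
  have h2 : Tendsto (fun m : ℕ => (bC (2 * m + 1) : ℝ) / ((2 * m + 1 : ℕ) : ℝ)) atTop (𝓝 ρ) := by
    have h3 : Tendsto (fun m : ℕ => ((oC m : ℝ) / m + 1 / m / 2) / (1 + 1 / m / 2)) atTop
        (𝓝 ((ρ + 0 / 2) / (1 + 0 / 2))) :=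
      (ho.add (hinv.div_const 2)).div (tendsto_const_nhds.add (hinv.div_const 2)) (by norm_num)
    have h4 : (ρ + 0 / 2) / (1 + 0 / 2) = ρ := by norm_num
    rw [h4] at h3
    refine h3.congr' ?_
    filter_upwards [eventually_ge_atTop 1] with m hm
    have e1 : (m : ℝ) ≠ 0 := by exact_mod_cast (by omega : m ≠ 0)
    have e2 : (2 * (m : ℝ) + 1) ≠ 0 := by positivity
    rw [bC_odd]
    push_cast
    have e3 : (1 + 1 / (m : ℝ) / 2) = (2 * m + 1) / (2 * m) := by field_simp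
    rw [e3]
    field_simp
  rw [Metric.tendsto_atTop] at h1 h2 ⊢
  intro ε hε
  obtain ⟨a, ha⟩ := h1 ε hε
  obtain ⟨b, hb⟩ := h2 ε hε
  refine ⟨2 * a + 2 * b + 2, fun n hn => ?_⟩
  rcases Nat.mod_two_eq_zero_or_one n with h | h
  · obtain ⟨m, rfl⟩ : ∃ m, n = 2 * m := ⟨n / 2, by omega⟩
    exact ha m (by omega)
  · obtain ⟨m, rfl⟩ : ∃ m, n = 2 * m + 1 := ⟨n / 2, by omega⟩
    exact hb m (by omega)

/-- The limit of `b n / n`. -/
theorem bC_limit : ∃ ρ : ℝ, ρ = (1 - ρ) ^ 3 ∧ 0.3176 < ρ ∧ ρ < 0.3177 ∧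
    Tendsto (fun n : ℕ => (bC n : ℝ) / n) atTop (𝓝 ρ) := by
  obtain ⟨κ, h, h1, h2⟩ := exists_kappa
  have S := sett_C κ h h1 h2
  refine ⟨κ ^ 3, ?_, ?_, ?_, tendsto_b _ S.tendsto_e S.tendsto_o⟩
  · have h3 : 1 - κ ^ 3 = κ := by linarith
    rw [h3]
  · linarith
  · linarith

end Pool.Agent.W_MP_c3a542_nt
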