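import Pool.Agent.W_MP_c3a542_nt.Slow

/-!
Landmarks: the exact values of `e` and `o` near the points `N k`, where
`N (k+3) = N (k+2) + N k + c`.
-/

set_option autoImplicit false

namespace Pool.Agent.W_MP_c3a542_nt

/-- Values near a landmark of the first type. -/
structure FA (e o : ℕ → ℕ) (a p : ℕ) : Prop where
  e0 : e a = p + 1
  e1 : e (a + 1) = p + 1
  e2 : e (a + 2) = p + 2
  e3 : e (a + 3) = p + 3
  e4 : e (a + 4) = p + 3
  o0 : o a = p + 1
  o1 : o (a + 1) = p + 1
  o2 : o (a + 2) = p + 2
  o3 : o (a + 3) = p + 2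

/-- Values near a landmark of the second type. -/
structure FB (e o : ℕ → ℕ) (b p : ℕ) : Prop where
  e0 : e b = p + 2
  e1 : e (b + 1) = p + 3
  e2 : e (b + 2) = p + 3
  e3 : e (b + 3) = p + 3
  o0 : o b = p + 2
  o1 : o (b + 1) = p + 2
  o2 : o (b + 2) = p + 3
  o3 : o (b + 3) = p + 3

variable {e o : ℕ → ℕ}

theorem boxA (H : EO e o) {p q P Q : ℕ} (hp : FB e o p P) (hq : FB e o q Q)
    (hpq : P + Q + 4 = p) (m : ℕ) (hm : m ≤ p + q + 2) :
    (o m ≤ p + 1 ∧ m ≤ o m + q + 1) ∧ (1 ≤ m → e m ≤ p + 1 ∧ m ≤ e m + q + 1) := by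
  induction m with
  | zero =>
    have := H.o0
    exact ⟨⟨by omega, by omega⟩, fun h => by omega⟩
  | succ m ih =>
    obtain ⟨⟨h1, h2⟩, _⟩ := ih (by omega)
    have hE : e (m + 1) ≤ p + 1 ∧ m + 1 ≤ e (m + 1) + q + 1 := by
      rcases Nat.eq_zero_or_pos m with h0 | h0
      · subst h0
        have := H.e1
        simp only [Nat.zero_add]
        omega
      · have h3 := H.he (m + 1) (by omega)
        have h4 : m + 1 - 1 = m := by omega
        rw [h4] at h3
        have h5 := H.o_le m
        have h6 := (H.o_mono (i := o m) (j := p + 1) h1).1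
        have h7 := (H.o_mono (i := m - o m) (j := q + 1) (by omega)).1
        have ho1 := hp.o1
        have hq1 := hq.o1
        have ho0 := hp.o0
        have hq0 := hq.o0
        refine ⟨by omega, ?_⟩
        rcases Nat.lt_or_ge (o m) (p + 1) with h8 | h8
        · have h9 := (H.o_mono (i := o m) (j := p) (by omega)).2
          have h10 := (H.o_mono (i := m - o m) (j := q + 1) (by omega)).2
          omega
        · have h9 := (H.o_mono (i := o m) (j := p + 1) (by omega)).2
          have h10 := (H.o_mono (i := m - o m) (j := q) (by omega)).2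
          omega
    refine ⟨?_, fun _ => hE⟩
    have h3 := H.ho (m + 1) (by omega)
    have h5 := H.e_lt (m + 1) (by omega)
    have h6 := H.o_mono (i := e (m + 1)) (j := p + 1) hE.1
    have h7 := H.e_mono (i := m + 1 - e (m + 1)) (j := q + 1) (by omega) (by omega)
    have ho1 := hp.o1
    have hq1 := hq.e1
    omega

theorem stepA (H : EO e o) {p q P Q : ℕ} (hp : FB e o p P) (hq : FB e o q Q)
    (hpq : P + Q + 4 = p) : FA e o (p + q + 2) p := by
  have hb := boxA H hp hq hpq (p + q + 2) le_rfl
  obtain ⟨⟨h1, h2⟩, h3⟩ := hb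
  obtain ⟨h4, h5⟩ := h3 (by omega)
  have ho0 : o (p + q + 2) = p + 1 := by omega
  have he0 : e (p + q + 2) = p + 1 := by omega
  have he1 : e (p + q + 3) = p + 1 := by
    have h := H.he (p + q + 3) (by omega)
    have a1 : p + q + 3 - 1 = p + q + 2 := by omega
    rw [a1, ho0] at h
    have a2 : p + q + 2 - (p + 1) = q + 1 := by omega
    rw [a2, hp.o1, hq.o1] at h
    omega
  have ho1 : o (p + q + 3) = p + 1 := by
    have h := H.ho (p + q + 3) (by omega)
    rw [he1] at h
    have a2 : p + q + 3 - (p + 1) = q + 2 := by omega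
    rw [a2, hp.o1, hq.e2] at h
    omega
  have he2 : e (p + q + 4) = p + 2 := by
    have h := H.he (p + q + 4) (by omega)
    have a1 : p + q + 4 - 1 = p + q + 3 := by omega
    rw [a1, ho1] at h
    have a2 : p + q + 3 - (p + 1) = q + 2 := by omega
    rw [a2, hp.o1, hq.o2] at h
    omega
  have ho2 : o (p + q + 4) = p + 2 := by
    have h := H.ho (p + q + 4) (by omega)
    rw [he2] at h
    have a2 : p + q + 4 - (p + 2) = q + 2 := by omega
    rw [a2, hp.o2, hq.e2] at h
    omega
  have he3 : e (p + q + 5) = p + 3 := by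
    have h := H.he (p + q + 5) (by omega)
    have a1 : p + q + 5 - 1 = p + q + 4 := by omega
    rw [a1, ho2] at h
    have a2 : p + q + 4 - (p + 2) = q + 2 := by omega
    rw [a2, hp.o2, hq.o2] at h
    omega
  have ho3 : o (p + q + 5) = p + 2 := by
    have h := H.ho (p + q + 5) (by omega)
    rw [he3] at h
    have a2 : p + q + 5 - (p + 3) = q + 2 := by omega
    rw [a2, hp.o3, hq.e2] at h
    omega
  have he4 : e (p + q + 6) = p + 3 := by
    have h := H.he (p + q + 6) (by omega)
    have a1 : p + q + 6 - 1 = p + q + 5 := by omega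
    rw [a1, ho3] at h
    have a2 : p + q + 5 - (p + 2) = q + 3 := by omega
    rw [a2, hp.o2, hq.o3] at h
    omega
  exact ⟨he0, he1, he2, he3, he4, ho0, ho1, ho2, ho3⟩

theorem boxB (H : EO e o) {p q P Q : ℕ} (hp : FA e o p P) (hq : FA e o q Q)
    (hpq : P + Q + 2 = p) (m : ℕ) (hm : m ≤ p + q + 4) :
    (o m ≤ p + 2 ∧ m ≤ o m + q + 2) ∧ (1 ≤ m → e m ≤ p + 2 ∧ m ≤ e m + q + 2) := by
  induction m with
  | zero =>
    have := H.o0
    exact ⟨⟨by omega, by omega⟩, fun h => by omega⟩
  | succ m ih =>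
    obtain ⟨⟨h1, h2⟩, _⟩ := ih (by omega)
    have hE : e (m + 1) ≤ p + 2 ∧ m + 1 ≤ e (m + 1) + q + 2 := by
      rcases Nat.eq_zero_or_pos m with h0 | h0
      · subst h0
        have := H.e1
        simp only [Nat.zero_add]
        omega
      · have h3 := H.he (m + 1) (by omega)
        have h4 : m + 1 - 1 = m := by omega
        rw [h4] at h3
        have h5 := H.o_le m
        have ho1 := hp.o1
        have hq1 := hq.o1
        have ho2 := hp.o2
        have hq2 := hq.o2
        have h6 := H.o_mono (i := o m) (j := p + 2) h1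
        have h7 := H.o_mono (i := m - o m) (j := q + 2) (by omega)
        rcases Nat.lt_or_ge (o m) (p + 2) with h8 | h8
        · have h9 := H.o_mono (i := o m) (j := p + 1) (by omega)
          omega
        · have h10 := H.o_mono (i := m - o m) (j := q + 1) (by omega)
          omega
    refine ⟨?_, fun _ => hE⟩
    have h3 := H.ho (m + 1) (by omega)
    have h5 := H.e_lt (m + 1) (by omega)
    have h6 := H.o_mono (i := e (m + 1)) (j := p + 2) hE.1
    have h7 := H.e_mono (i := m + 1 - e (m + 1)) (j := q + 2) (by omega) (by omega)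
    have ho2 := hp.o2
    have hq2 := hq.e2
    omega

theorem stepB (H : EO e o) {p q P Q : ℕ} (hp : FA e o p P) (hq : FA e o q Q)
    (hpq : P + Q + 2 = p) : FB e o (p + q + 4) p := by
  have hb := boxB H hp hq hpq (p + q + 4) le_rfl
  obtain ⟨⟨h1, h2⟩, h3⟩ := hb
  obtain ⟨h4, h5⟩ := h3 (by omega)
  have ho0 : o (p + q + 4) = p + 2 := by omega
  have he0 : e (p + q + 4) = p + 2 := by omega
  have he1 : e (p + q + 5) = p + 3 := by
    have h := H.he (p + q + 5) (by omega)
    have a1 : p + q + 5 - 1 = p + q + 4 := by omega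
    rw [a1, ho0] at h
    have a2 : p + q + 4 - (p + 2) = q + 2 := by omega
    rw [a2, hp.o2, hq.o2] at h
    omega
  have ho1 : o (p + q + 5) = p + 2 := by
    have h := H.ho (p + q + 5) (by omega)
    rw [he1] at h
    have a2 : p + q + 5 - (p + 3) = q + 2 := by omega
    rw [a2, hp.o3, hq.e2] at h
    omega
  have he2 : e (p + q + 6) = p + 3 := by
    have h := H.he (p + q + 6) (by omega)
    have a1 : p + q + 6 - 1 = p + q + 5 := by omega
    rw [a1, ho1] at h
    have a2 : p + q + 5 - (p + 2) = q + 3 := by omega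
    rw [a2, hp.o2, hq.o3] at h
    omega
  have ho2 : o (p + q + 6) = p + 3 := by
    have h := H.ho (p + q + 6) (by omega)
    rw [he2] at h
    have a2 : p + q + 6 - (p + 3) = q + 3 := by omega
    rw [a2, hp.o3, hq.e3] at h
    omega
  have he3 : e (p + q + 7) = p + 3 := by
    have h := H.he (p + q + 7) (by omega)
    have a1 : p + q + 7 - 1 = p + q + 6 := by omega
    rw [a1, ho2] at h
    have a2 : p + q + 6 - (p + 3) = q + 3 := by omega
    rw [a2, hp.o3, hq.o3] at h
    omega
  have ho3 : o (p + q + 7) = p + 3 := by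
    have h := H.ho (p + q + 7) (by omega)
    rw [he3] at h
    have a2 : p + q + 7 - (p + 3) = q + 4 := by omega
    rw [a2, hp.o3, hq.e4] at h
    omega
  exact ⟨he0, he1, he2, he3, ho0, ho1, ho2, ho3⟩

/-- The landmarks. -/
def N : ℕ → ℕ
  | 0 => 21
  | 1 => 33
  | 2 => 49
  | k + 3 => N (k + 2) + N k + (if k % 2 = 0 then 4 else 2)

theorem N_even (k : ℕ) (h : k % 2 = 0) : N (k + 3) = N k + N (k + 2) + 4 := by
  rw [N, if_pos h]; omega

theorem N_odd (k : ℕ) (h : k % 2 = 1) : N (k + 3) = N k + N (k + 2) + 2 := by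
  rw [N, if_neg (by omega)]; omega

/-- The facts near the landmark `N (k+3)`. -/
def Fct (e o : ℕ → ℕ) (k : ℕ) : Prop :=
  (k % 2 = 0 → FB e o (N (k + 3)) (N k)) ∧ (k % 2 = 1 → FA e o (N (k + 3)) (N k))

theorem fct_step (H : EO e o) (k : ℕ) (h0 : Fct e o k) (h2 : Fct e o (k + 2)) :
    Fct e o (k + 3) := by
  constructor
  · intro h
    have hk : k % 2 = 1 := by omega
    have hp := h0.2 hk
    have hq := h2.2 (by omega)
    have h3 := N_odd k hk
    have h4 := stepB H hp hq (by omega)
    have h5 := N_even (k + 3) (by omega)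
    have h6 : k + 3 + 2 = k + 2 + 3 := by omega
    rw [h6] at h5
    rw [← h5] at h4
    exact h4
  · intro h
    have hk : k % 2 = 0 := by omega
    have hp := h0.1 hk
    have hq := h2.1 (by omega)
    have h3 := N_even k hk
    have h4 := stepA H hp hq (by omega)
    have h5 := N_odd (k + 3) (by omega)
    have h6 : k + 3 + 2 = k + 2 + 3 := by omega
    rw [h6] at h5
    rw [← h5] at h4
    exact h4

theorem fct_all (H : EO e o) (h0 : Fct e o 0) (h1 : Fct e o 1) (h2 : Fct e o 2) (k : ℕ) :
    Fct e o k := by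
  induction k using Nat.strong_induction_on with
  | _ k ih =>
    match k with
    | 0 => exact h0
    | 1 => exact h1
    | 2 => exact h2
    | k + 3 => exact fct_step H k (ih k (by omega)) (ih (k + 2) (by omega))

/-- The values at the landmarks. -/
theorem e_landmark (H : EO e o) (h0 : Fct e o 0) (h1 : Fct e o 1) (h2 : Fct e o 2) (k : ℕ) :
    N k + 1 ≤ e (N (k + 3)) ∧ e (N (k + 3)) ≤ N k + 2 := by
  have h := fct_all H h0 h1 h2 k
  rcases Nat.mod_two_eq_zero_or_one k with hk | hk
  · have := (h.1 hk).e0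
    omega
  · have := (h.2 hk).e0
    omega

end Pool.Agent.W_MP_c3a542_nt
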