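import Pool.Agent.W_MP_c3a542_nt.Ratio

/-!
Limit points of the pair `e, o` along ultrafilters on pairs `(m, k)`, where `k` is the level of the
block in which `m` lies.
-/

set_option autoImplicit false

open Filter Topology

namespace Pool.Agent.W_MP_c3a542_nt

/-- Growth by steps in `{0, 1}` and value `≈ κ³ N` at the landmarks. -/
structure Slow (g : ℕ → ℕ) (κ : ℝ) : Prop where
  mono : ∀ i j, 1 ≤ i → i ≤ j → g i ≤ g j ∧ i + g j ≤ j + g i
  le : ∀ i, 1 ≤ i → g i ≤ i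
  land : Tendsto (fun k => (g (N k) : ℝ) / N k) atTop (𝓝 (κ ^ 3))

theorem tendsto_prev (κ : ℝ) (h : κ ^ 3 = 1 - κ) (h1 : 0.6823 < κ) (h2 : κ < 0.6824) :
    Tendsto (fun k => (N (k - 1) : ℝ) / N k) atTop (𝓝 κ) := by
  rw [← tendsto_add_atTop_iff_nat 1]
  exact tendsto_ratio κ h h1 h2

theorem tendsto_prev3 (κ : ℝ) (h : κ ^ 3 = 1 - κ) (h1 : 0.6823 < κ) (h2 : κ < 0.6824) :
    Tendsto (fun k => (N (k - 3) : ℝ) / N k) atTop (𝓝 (κ ^ 3)) := by
  rw [← tendsto_add_atTop_iff_nat 3]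
  have t := tendsto_ratio κ h h1 h2
  have t1 := (tendsto_add_atTop_iff_nat 1).2 t
  have t2 := (tendsto_add_atTop_iff_nat 2).2 t
  have h3 := (t.mul t1).mul t2
  have h4 : κ * κ * κ = κ ^ 3 := by ring
  rw [h4] at h3
  refine h3.congr (fun k => ?_)
  have p1 : (N (k + 1) : ℝ) ≠ 0 := by exact_mod_cast (N_pos (k + 1)).ne'
  have p2 : (N (k + 2) : ℝ) ≠ 0 := by exact_mod_cast (N_pos (k + 2)).ne'
  have p3 : (N (k + 3) : ℝ) ≠ 0 := by exact_mod_cast (N_pos (k + 3)).ne'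
  have e1 : k + 1 + 1 = k + 2 := rfl
  have e2 : k + 2 + 1 = k + 3 := rfl
  have e3 : k + 3 - 3 = k := by omega
  rw [e1, e2, e3]
  field_simp

theorem tendsto_next (κ : ℝ) (h : κ ^ 3 = 1 - κ) (h1 : 0.6823 < κ) (h2 : κ < 0.6824) :
    Tendsto (fun k => (N (k + 1) : ℝ) / N k) atTop (𝓝 κ⁻¹) := by
  have t := (tendsto_ratio κ h h1 h2).inv₀ (by linarith : κ ≠ 0)
  refine t.congr (fun k => ?_)
  rw [inv_div]

/-- A position with its level. -/
structure Pos (κ : ℝ) (U : Filter (ℕ × ℕ)) (r : ℝ) : Prop where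
  lev : Tendsto (fun p : ℕ × ℕ => p.2) U atTop
  pos : Tendsto (fun p : ℕ × ℕ => (p.1 : ℝ) / N p.2) U (𝓝 r)
  r1 : 1 ≤ r
  r2 : r * κ ≤ 1

variable {κ : ℝ} {U : Filter (ℕ × ℕ)} {r : ℝ}

theorem Pos.infty (P : Pos κ U r) : Tendsto (fun p : ℕ × ℕ => (p.1 : ℝ)) U atTop := by
  have h1 := (tendsto_N.comp P.lev).atTop_mul_pos (by linarith [P.r1] : (0 : ℝ) < r) P.pos
  refine h1.congr (fun p => ?_)
  have : (N p.2 : ℝ) ≠ 0 := by exact_mod_cast (N_pos p.2).ne'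
  simp only [Function.comp_apply]
  field_simp

theorem Pos.ev (P : Pos κ U r) (c : ℕ) : ∀ᶠ p in U, c ≤ p.1 := by
  have := P.infty.eventually_ge_atTop (c : ℝ)
  filter_upwards [this] with p hp
  exact_mod_cast hp

theorem Pos.inv (P : Pos κ U r) : Tendsto (fun p : ℕ × ℕ => 1 / (p.1 : ℝ)) U (𝓝 0) :=
  Tendsto.div_atTop tendsto_const_nhds P.infty

/-- The four inequalities for the image of a position. -/
theorem Pos.bounds [U.NeBot] (P : Pos κ U r) (h : κ ^ 3 = 1 - κ) (h1 : 0.6823 < κ)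
    (h2 : κ < 0.6824) {g : ℕ → ℕ} (G : Slow g κ) {γ : ℝ}
    (hg : Tendsto (fun p : ℕ × ℕ => (g p.1 : ℝ) / p.1) U (𝓝 γ)) :
    κ ^ 3 ≤ γ * r ∧ κ ≤ (1 - γ) * r ∧ γ * r ≤ κ ^ 2 ∧ (1 - γ) * r ≤ 1 := by
  have hκ : 0 < κ := by linarith
  have hmul : Tendsto (fun p : ℕ × ℕ => (g p.1 : ℝ) / N p.2) U (𝓝 (γ * r)) := by
    refine (hg.mul P.pos).congr' ?_
    filter_upwards [P.ev 1] with p hp
    have h3 : (p.1 : ℝ) ≠ 0 := by exact_mod_cast (by omega : p.1 ≠ 0)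
    field_simp
  have hcm : Tendsto (fun p : ℕ × ℕ => ((p.1 : ℝ) - g p.1) / N p.2) U (𝓝 ((1 - γ) * r)) := by
    have h3 := P.pos.sub hmul
    have h4 : r - γ * r = (1 - γ) * r := by ring
    rw [h4] at h3
    refine h3.congr (fun p => ?_)
    rw [sub_div]
  have hland : Tendsto (fun p : ℕ × ℕ => (g (N p.2) : ℝ) / N p.2) U (𝓝 (κ ^ 3)) :=
    G.land.comp P.lev
  have hland1 : Tendsto (fun p : ℕ × ℕ => (g (N (p.2 + 1)) : ℝ) / N (p.2 + 1)) U (𝓝 (κ ^ 3)) :=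
    ((tendsto_add_atTop_iff_nat 1).2 G.land).comp P.lev
  have hnext : Tendsto (fun p : ℕ × ℕ => (N (p.2 + 1) : ℝ) / N p.2) U (𝓝 κ⁻¹) :=
    (tendsto_next κ h h1 h2).comp P.lev
  have hmaxl : Tendsto (fun p : ℕ × ℕ => max 0 (1 - (p.1 : ℝ) / N p.2)) U (𝓝 0) := by
    have h3 := (tendsto_const_nhds (x := (0 : ℝ)) (f := U)).max
      ((tendsto_const_nhds (x := (1 : ℝ)) (f := U)).sub P.pos)
    have h4 : max 0 (1 - r) = 0 := max_eq_left (by linarith [P.r1])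
    rwa [h4] at h3
  have hmaxr : Tendsto (fun p : ℕ × ℕ => max 0 ((p.1 : ℝ) / N p.2 - (N (p.2 + 1) : ℝ) / N p.2)) U
      (𝓝 0) := by
    have h3 := (tendsto_const_nhds (x := (0 : ℝ)) (f := U)).max (P.pos.sub hnext)
    have h4 : max 0 (r - κ⁻¹) = 0 := by
      apply max_eq_left
      rw [sub_nonpos, le_inv_comm₀ (by linarith [P.r1]) hκ]
      rw [← one_div, le_div_iff₀ (by linarith [P.r1])]
      linarith [P.r2, mul_comm r κ]
    rwa [h4] at h3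
  refine ⟨?_, ?_, ?_, ?_⟩
  · have h3 := hland.sub hmaxl
    rw [sub_zero] at h3
    refine le_of_tendsto_of_tendsto h3 hmul ?_
    filter_upwards [P.ev 1] with p hp
    have hN : (0 : ℝ) < N p.2 := by exact_mod_cast N_pos p.2
    rcases le_total p.1 (N p.2) with h4 | h4
    · have h5 := (G.mono p.1 (N p.2) hp h4).2
      have h6 : (p.1 : ℝ) + g (N p.2) ≤ N p.2 + g p.1 := by exact_mod_cast h5
      have h7 : 1 - (p.1 : ℝ) / N p.2 ≤ max 0 (1 - (p.1 : ℝ) / N p.2) := le_max_right _ _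
      have h8 : (g (N p.2) : ℝ) / N p.2 - (1 - (p.1 : ℝ) / N p.2) ≤ (g p.1 : ℝ) / N p.2 := by
        rw [sub_le_iff_le_add, ← sub_le_iff_le_add', sub_le_iff_le_add]
        have h9 : (g p.1 : ℝ) / N p.2 + (1 - (p.1 : ℝ) / N p.2) =
            ((N p.2 : ℝ) + g p.1 - p.1) / N p.2 := by field_simp; ring
        have h10 : (g (N p.2) : ℝ) / N p.2 ≤ ((N p.2 : ℝ) + g p.1 - p.1) / N p.2 :=
          div_le_div_of_nonneg_right (by linarith) hN.le
        linarith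
      linarith
    · have h5 := (G.mono (N p.2) p.1 (N_pos p.2) h4).1
      have h6 : (g (N p.2) : ℝ) / N p.2 ≤ (g p.1 : ℝ) / N p.2 :=
        div_le_div_of_nonneg_right (by exact_mod_cast h5) hN.le
      have h7 : 0 ≤ max 0 (1 - (p.1 : ℝ) / N p.2) := le_max_left _ _
      linarith
  · have h3 := ((tendsto_const_nhds (x := (1 : ℝ)) (f := U)).sub hland).sub hmaxl
    have h4 : 1 - κ ^ 3 - 0 = κ := by linarith
    rw [h4] at h3
    refine le_of_tendsto_of_tendsto h3 hcm ?_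
    filter_upwards [P.ev 1] with p hp
    have hN : (0 : ℝ) < N p.2 := by exact_mod_cast N_pos p.2
    have e1 : (1 : ℝ) - (g (N p.2) : ℝ) / N p.2 = ((N p.2 : ℝ) - g (N p.2)) / N p.2 := by
      field_simp
    rcases le_total p.1 (N p.2) with h4 | h4
    · have h5 := (G.mono p.1 (N p.2) hp h4).1
      have h6 : (g p.1 : ℝ) ≤ g (N p.2) := by exact_mod_cast h5
      have h7 : 1 - (p.1 : ℝ) / N p.2 ≤ max 0 (1 - (p.1 : ℝ) / N p.2) := le_max_right _ _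
      have h8 : (1 - (g (N p.2) : ℝ) / N p.2) - (1 - (p.1 : ℝ) / N p.2) ≤
          ((p.1 : ℝ) - g p.1) / N p.2 := by
        have h9 : (1 - (g (N p.2) : ℝ) / N p.2) - (1 - (p.1 : ℝ) / N p.2) =
            ((p.1 : ℝ) - g (N p.2)) / N p.2 := by field_simp; ring
        rw [h9]
        exact div_le_div_of_nonneg_right (by linarith) hN.le
      linarith
    · have h5 := (G.mono (N p.2) p.1 (N_pos p.2) h4).2
      have h6 : (N p.2 : ℝ) + g p.1 ≤ p.1 + g (N p.2) := by exact_mod_cast h5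
      have h7 : 0 ≤ max 0 (1 - (p.1 : ℝ) / N p.2) := le_max_left _ _
      have h8 : ((N p.2 : ℝ) - g (N p.2)) / N p.2 ≤ ((p.1 : ℝ) - g p.1) / N p.2 :=
        div_le_div_of_nonneg_right (by linarith) hN.le
      rw [e1]
      linarith
  · have h3 := (hland1.mul hnext).add hmaxr
    have h4 : κ ^ 3 * κ⁻¹ + 0 = κ ^ 2 := by field_simp; ring
    rw [h4] at h3
    refine le_of_tendsto_of_tendsto hmul h3 ?_
    filter_upwards [P.ev 1] with p hp
    have hN : (0 : ℝ) < N p.2 := by exact_mod_cast N_pos p.2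
    have hN1 : (0 : ℝ) < N (p.2 + 1) := by exact_mod_cast N_pos (p.2 + 1)
    have e1 : (g (N (p.2 + 1)) : ℝ) / N (p.2 + 1) * ((N (p.2 + 1) : ℝ) / N p.2) =
        (g (N (p.2 + 1)) : ℝ) / N p.2 := by field_simp
    rw [e1]
    rcases le_total p.1 (N (p.2 + 1)) with h4 | h4
    · have h5 := (G.mono p.1 (N (p.2 + 1)) hp h4).1
      have h6 : (g p.1 : ℝ) / N p.2 ≤ (g (N (p.2 + 1)) : ℝ) / N p.2 :=
        div_le_div_of_nonneg_right (by exact_mod_cast h5) hN.le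
      have h7 : 0 ≤ max 0 ((p.1 : ℝ) / N p.2 - (N (p.2 + 1) : ℝ) / N p.2) := le_max_left _ _
      linarith
    · have h5 := (G.mono (N (p.2 + 1)) p.1 (N_pos _) h4).2
      have h6 : (N (p.2 + 1) : ℝ) + g p.1 ≤ p.1 + g (N (p.2 + 1)) := by exact_mod_cast h5
      have h7 : (p.1 : ℝ) / N p.2 - (N (p.2 + 1) : ℝ) / N p.2 ≤
        max 0 ((p.1 : ℝ) / N p.2 - (N (p.2 + 1) : ℝ) / N p.2) := le_max_right _ _
      have h8 : (g p.1 : ℝ) / N p.2 ≤ (g (N (p.2 + 1)) : ℝ) / N p.2 +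
          ((p.1 : ℝ) / N p.2 - (N (p.2 + 1) : ℝ) / N p.2) := by
        rw [← sub_div, ← add_div]
        exact div_le_div_of_nonneg_right (by linarith) hN.le
      linarith
  · have h3 := (((tendsto_const_nhds (x := (1 : ℝ)) (f := U)).sub hland1).mul hnext).add hmaxr
    have h4 : (1 - κ ^ 3) * κ⁻¹ + 0 = 1 := by
      rw [h]; field_simp; ring
    rw [h4] at h3
    refine le_of_tendsto_of_tendsto hcm h3 ?_
    filter_upwards [P.ev 1] with p hp
    have hN : (0 : ℝ) < N p.2 := by exact_mod_cast N_pos p.2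
    have hN1 : (0 : ℝ) < N (p.2 + 1) := by exact_mod_cast N_pos (p.2 + 1)
    have e1 : (1 - (g (N (p.2 + 1)) : ℝ) / N (p.2 + 1)) * ((N (p.2 + 1) : ℝ) / N p.2) =
        ((N (p.2 + 1) : ℝ) - g (N (p.2 + 1))) / N p.2 := by field_simp
    rw [e1]
    rcases le_total p.1 (N (p.2 + 1)) with h4 | h4
    · have h5 := (G.mono p.1 (N (p.2 + 1)) hp h4).2
      have h6 : (p.1 : ℝ) + g (N (p.2 + 1)) ≤ N (p.2 + 1) + g p.1 := by exact_mod_cast h5
      have h7 : 0 ≤ max 0 ((p.1 : ℝ) / N p.2 - (N (p.2 + 1) : ℝ) / N p.2) := le_max_left _ _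
      have h8 : ((p.1 : ℝ) - g p.1) / N p.2 ≤ ((N (p.2 + 1) : ℝ) - g (N (p.2 + 1))) / N p.2 :=
        div_le_div_of_nonneg_right (by linarith) hN.le
      linarith
    · have h5 := (G.mono (N (p.2 + 1)) p.1 (N_pos _) h4).1
      have h6 : (g (N (p.2 + 1)) : ℝ) ≤ g p.1 := by exact_mod_cast h5
      have h7 : (p.1 : ℝ) / N p.2 - (N (p.2 + 1) : ℝ) / N p.2 ≤
        max 0 ((p.1 : ℝ) / N p.2 - (N (p.2 + 1) : ℝ) / N p.2) := le_max_right _ _
      have h8 : ((p.1 : ℝ) - g p.1) / N p.2 ≤ ((N (p.2 + 1) : ℝ) - g (N (p.2 + 1))) / N p.2 +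
          ((p.1 : ℝ) / N p.2 - (N (p.2 + 1) : ℝ) / N p.2) := by
        rw [← sub_div, ← add_div]
        exact div_le_div_of_nonneg_right (by linarith) hN.le
      linarith

end Pool.Agent.W_MP_c3a542_nt
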