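import Pool.Agent.W_MP_c3a542_nt.Pts

/-!
Images of limit points under the recursion.
-/

set_option autoImplicit false

open Filter Topology

namespace Pool.Agent.W_MP_c3a542_nt

variable {κ : ℝ} {r : ℝ}

theorem Pos.push {U : Filter (ℕ × ℕ)} (P : Pos κ U r) (d : ℕ) {c : ℝ} (hc : 0 < c)
    (hN : Tendsto (fun k => (N (k - d) : ℝ) / N k) atTop (𝓝 c)) (f : ℕ → ℕ) {γ : ℝ}
    (hf : Tendsto (fun p : ℕ × ℕ => (f p.1 : ℝ) / p.1) U (𝓝 γ)) (h1 : c ≤ γ * r)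
    (h2 : γ * r * κ ≤ c) :
    Pos κ (U.map (fun p : ℕ × ℕ => (f p.1, p.2 - d))) (γ * r / c) where
  lev := by
    rw [tendsto_map'_iff]
    exact (tendsto_sub_atTop_nat d).comp P.lev
  pos := by
    rw [tendsto_map'_iff]
    have h3 := (hf.mul P.pos).div (hN.comp P.lev) hc.ne'
    refine h3.congr' ?_
    filter_upwards [P.ev 1] with p hp
    have e1 : (p.1 : ℝ) ≠ 0 := by exact_mod_cast (by omega : p.1 ≠ 0)
    have e2 : (N p.2 : ℝ) ≠ 0 := by exact_mod_cast (N_pos p.2).ne'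
    have e3 : (N (p.2 - d) : ℝ) ≠ 0 := by exact_mod_cast (N_pos _).ne'
    simp only [Function.comp_apply, Pi.div_apply]
    field_simp
  r1 := by rwa [le_div_iff₀ hc, one_mul]
  r2 := by rwa [div_mul_eq_mul_div, div_le_one hc]

/-- Existence of limits along an ultrafilter. -/
theorem exists_lim {β : Type*} (U : Ultrafilter β) (g : β → ℝ) (a b : ℝ)
    (hg : ∀ p, g p ∈ Set.Icc a b) :
    ∃ γ ∈ Set.Icc a b, Tendsto g U (𝓝 γ) := by
  have h := (isCompact_Icc (a := a) (b := b)).ultrafilter_le_nhds' (U.map g)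
    (by
      rw [Ultrafilter.mem_map]
      exact Filter.Eventually.of_forall hg)
  obtain ⟨x, hx, hx2⟩ := h
  exact ⟨x, hx, hx2⟩

/-- A limit point: position `r`, limits `α` of `o m / m` and `β` of `e m / m`. -/
structure Pt (e o : ℕ → ℕ) (κ : ℝ) (U : Filter (ℕ × ℕ)) (α β r : ℝ) : Prop where
  P : Pos κ U r
  ho : Tendsto (fun p : ℕ × ℕ => (o p.1 : ℝ) / p.1) U (𝓝 α)
  he : Tendsto (fun p : ℕ × ℕ => (e p.1 : ℝ) / p.1) U (𝓝 β)

/-- The whole setting. -/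
structure Sett (e o : ℕ → ℕ) (κ : ℝ) : Prop where
  eo : EO e o
  se : Slow e κ
  so : Slow o κ
  e0 : e 0 = 0
  k3 : κ ^ 3 = 1 - κ
  k1 : 0.6823 < κ
  k2 : κ < 0.6824

variable {e o : ℕ → ℕ}

theorem Sett.kpos (S : Sett e o κ) : 0 < κ := by linarith [S.k1]

theorem Sett.ratio_o (S : Sett e o κ) (m : ℕ) : (o m : ℝ) / m ∈ Set.Icc (0 : ℝ) 1 := by
  refine ⟨by positivity, ?_⟩
  rcases Nat.eq_zero_or_pos m with h | h
  · subst h; simp
  · rw [div_le_one (by exact_mod_cast h)]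
    exact_mod_cast S.eo.o_le m

theorem Sett.ratio_e (S : Sett e o κ) (m : ℕ) : (e m : ℝ) / m ∈ Set.Icc (0 : ℝ) 1 := by
  refine ⟨by positivity, ?_⟩
  rcases Nat.eq_zero_or_pos m with h | h
  · subst h; simp
  · rw [div_le_one (by exact_mod_cast h)]
    have := S.eo.e_lt m h
    exact_mod_cast (by omega : e m ≤ m)

theorem Sett.exists_pt (S : Sett e o κ) (U : Ultrafilter (ℕ × ℕ)) (P : Pos κ U r) :
    ∃ α β, Pt e o κ U α β r := by
  obtain ⟨α, _, h1⟩ := exists_lim U (fun p : ℕ × ℕ => (o p.1 : ℝ) / p.1) 0 1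
    (fun p => S.ratio_o p.1)
  obtain ⟨β, _, h2⟩ := exists_lim U (fun p : ℕ × ℕ => (e p.1 : ℝ) / p.1) 0 1
    (fun p => S.ratio_e p.1)
  exact ⟨α, β, P, h1, h2⟩

variable {α β : ℝ} {U : Ultrafilter (ℕ × ℕ)}

/-- `(m, k) ↦ (e m, k - 3)`. -/
def fx (e : ℕ → ℕ) (p : ℕ × ℕ) : ℕ × ℕ := (e p.1, p.2 - 3)

/-- `(m, k) ↦ (m - e m, k - 1)`. -/
def fy (e : ℕ → ℕ) (p : ℕ × ℕ) : ℕ × ℕ := (p.1 - e p.1, p.2 - 1)

/-- `(m, k) ↦ (o (m-1), k - 3)`. -/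
def fs (o : ℕ → ℕ) (p : ℕ × ℕ) : ℕ × ℕ := (o (p.1 - 1), p.2 - 3)

/-- `(m, k) ↦ (m - 1 - o (m-1), k - 1)`. -/
def ft (o : ℕ → ℕ) (p : ℕ × ℕ) : ℕ × ℕ := (p.1 - 1 - o (p.1 - 1), p.2 - 1)

theorem Pt.posx (S : Sett e o κ) (Q : Pt e o κ U α β r) :
    Pos κ (U.map (fx e)) (β * r / κ ^ 3) := by
  have hb := Q.P.bounds S.k3 S.k1 S.k2 S.se Q.he
  refine Q.P.push 3 (pow_pos S.kpos 3) (tendsto_prev3 κ S.k3 S.k1 S.k2) e Q.he hb.1 ?_
  have := mul_le_mul_of_nonneg_right hb.2.2.1 S.kpos.le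
  calc β * r * κ ≤ κ ^ 2 * κ := this
    _ = κ ^ 3 := by ring

theorem Pt.tendy (S : Sett e o κ) (Q : Pt e o κ U α β r) :
    Tendsto (fun p : ℕ × ℕ => ((p.1 - e p.1 : ℕ) : ℝ) / p.1) U (𝓝 (1 - β)) := by
  refine ((tendsto_const_nhds (x := (1 : ℝ))).sub Q.he).congr' ?_
  filter_upwards [Q.P.ev 1] with p hp
  have h1 := S.eo.e_lt p.1 hp
  have e1 : (p.1 : ℝ) ≠ 0 := by exact_mod_cast (by omega : p.1 ≠ 0)
  rw [Nat.cast_sub (by omega)]
  field_simp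

theorem Pt.posy (S : Sett e o κ) (Q : Pt e o κ U α β r) :
    Pos κ (U.map (fy e)) ((1 - β) * r / κ) := by
  have hb := Q.P.bounds S.k3 S.k1 S.k2 S.se Q.he
  refine Q.P.push 1 S.kpos (tendsto_prev κ S.k3 S.k1 S.k2) (fun m => m - e m) (Q.tendy S) hb.2.1 ?_
  have := mul_le_mul_of_nonneg_right hb.2.2.2 S.kpos.le
  linarith

theorem Pt.tends (S : Sett e o κ) (Q : Pt e o κ U α β r) :
    Tendsto (fun p : ℕ × ℕ => (o (p.1 - 1) : ℝ) / p.1) U (𝓝 α) := by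
  have h1 := Q.P.inv
  have h2 : Tendsto (fun p : ℕ × ℕ => (o p.1 : ℝ) / p.1 - 1 / p.1) U (𝓝 (α - 0)) := Q.ho.sub h1
  rw [sub_zero] at h2
  refine tendsto_of_tendsto_of_tendsto_of_le_of_le' h2 Q.ho ?_ ?_
  · filter_upwards [Q.P.ev 1] with p hp
    have h3 := S.eo.o_step (p.1 - 1)
    have h4 : p.1 - 1 + 1 = p.1 := by omega
    rw [h4] at h3
    rw [← sub_div]
    apply div_le_div_of_nonneg_right _ (by positivity)
    have : (o p.1 : ℝ) ≤ o (p.1 - 1) + 1 := by exact_mod_cast h3.2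
    linarith
  · filter_upwards [Q.P.ev 1] with p hp
    have h3 := S.eo.o_step (p.1 - 1)
    have h4 : p.1 - 1 + 1 = p.1 := by omega
    rw [h4] at h3
    apply div_le_div_of_nonneg_right _ (by positivity)
    exact_mod_cast h3.1

theorem Pt.poss (S : Sett e o κ) (Q : Pt e o κ U α β r) :
    Pos κ (U.map (fs o)) (α * r / κ ^ 3) := by
  have hb := Q.P.bounds S.k3 S.k1 S.k2 S.so Q.ho
  refine Q.P.push 3 (pow_pos S.kpos 3) (tendsto_prev3 κ S.k3 S.k1 S.k2) (fun m => o (m - 1))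
    (Q.tends S) hb.1 ?_
  have := mul_le_mul_of_nonneg_right hb.2.2.1 S.kpos.le
  calc α * r * κ ≤ κ ^ 2 * κ := this
    _ = κ ^ 3 := by ring

theorem Pt.tendt (S : Sett e o κ) (Q : Pt e o κ U α β r) :
    Tendsto (fun p : ℕ × ℕ => ((p.1 - 1 - o (p.1 - 1) : ℕ) : ℝ) / p.1) U (𝓝 (1 - α)) := by
  have h0 := ((tendsto_const_nhds (x := (1 : ℝ)) (f := (U : Filter (ℕ × ℕ)))).sub Q.P.inv).sub
    (Q.tends S)
  rw [sub_zero] at h0
  refine h0.congr' ?_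
  filter_upwards [Q.P.ev 1] with p hp
  have h1 := S.eo.o_le (p.1 - 1)
  have e1 : (p.1 : ℝ) ≠ 0 := by exact_mod_cast (by omega : p.1 ≠ 0)
  rw [Nat.cast_sub h1, Nat.cast_sub hp]
  field_simp
  push_cast
  ring

theorem Pt.post (S : Sett e o κ) (Q : Pt e o κ U α β r) :
    Pos κ (U.map (ft o)) ((1 - α) * r / κ) := by
  have hb := Q.P.bounds S.k3 S.k1 S.k2 S.so Q.ho
  refine Q.P.push 1 S.kpos (tendsto_prev κ S.k3 S.k1 S.k2) (fun m => m - 1 - o (m - 1))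
    (Q.tendt S) hb.2.1 ?_
  have := mul_le_mul_of_nonneg_right hb.2.2.2 S.kpos.le
  linarith

theorem Pt.beta_pos (S : Sett e o κ) (Q : Pt e o κ U α β r) : 0 < β ∧ 0 < 1 - β := by
  have hb := Q.P.bounds S.k3 S.k1 S.k2 S.se Q.he
  have hr : 0 < r := by linarith [Q.P.r1]
  have hk := S.kpos
  constructor
  · by_contra hc
    have h1 : β * r ≤ 0 := mul_nonpos_of_nonpos_of_nonneg (not_lt.1 hc) hr.le
    have h2 : 0 < κ ^ 3 := by positivity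
    linarith [hb.1]
  · by_contra hc
    have h1 : (1 - β) * r ≤ 0 := mul_nonpos_of_nonpos_of_nonneg (not_lt.1 hc) hr.le
    linarith [hb.2.1]

theorem Pt.alpha_pos (S : Sett e o κ) (Q : Pt e o κ U α β r) : 0 < α ∧ 0 < 1 - α := by
  have hb := Q.P.bounds S.k3 S.k1 S.k2 S.so Q.ho
  have hr : 0 < r := by linarith [Q.P.r1]
  have hk := S.kpos
  constructor
  · by_contra hc
    have h1 : α * r ≤ 0 := mul_nonpos_of_nonpos_of_nonneg (not_lt.1 hc) hr.le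
    have h2 : 0 < κ ^ 3 := by positivity
    linarith [hb.1]
  · by_contra hc
    have h1 : (1 - α) * r ≤ 0 := mul_nonpos_of_nonpos_of_nonneg (not_lt.1 hc) hr.le
    linarith [hb.2.1]

/-- `α = β α_x + (1-β) β_y`. -/
theorem Pt.rel_o (S : Sett e o κ) (Q : Pt e o κ U α β r) {αx βx rx αy βy ry : ℝ}
    (Qx : Pt e o κ (U.map (fx e)) αx βx rx) (Qy : Pt e o κ (U.map (fy e)) αy βy ry) :
    α = β * αx + (1 - β) * βy := by
  have h1 : Tendsto (fun p : ℕ × ℕ => (o (e p.1) : ℝ) / (e p.1 : ℕ)) U (𝓝 αx) :=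
    tendsto_map'_iff.1 Qx.ho
  have h2 : Tendsto (fun p : ℕ × ℕ => (e (p.1 - e p.1) : ℝ) / (p.1 - e p.1 : ℕ)) U (𝓝 βy) :=
    tendsto_map'_iff.1 Qy.he
  have h3 := (Q.he.mul h1).add ((Q.tendy S).mul h2)
  refine tendsto_nhds_unique Q.ho (h3.congr' ?_)
  filter_upwards [Q.P.ev 1] with p hp
  have h4 := S.eo.e_lt p.1 hp
  have h5 := S.eo.ho p.1 hp
  have e1 : (p.1 : ℝ) ≠ 0 := by exact_mod_cast (by omega : p.1 ≠ 0)
  have e2 : ((p.1 - e p.1 : ℕ) : ℝ) ≠ 0 := by exact_mod_cast (by omega : p.1 - e p.1 ≠ 0)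
  have h6 : (o p.1 : ℝ) = o (e p.1) + e (p.1 - e p.1) := by exact_mod_cast h5
  rw [h6]
  rcases Nat.eq_zero_or_pos (e p.1) with h7 | h7
  · have h8 : o (e p.1) = 0 := by rw [h7, S.eo.o0]
    rw [h8]
    field_simp
    simp
  · have e3 : (e p.1 : ℝ) ≠ 0 := by exact_mod_cast (by omega : e p.1 ≠ 0)
    field_simp

/-- `β = α α_s + (1-α) α_t`. -/
theorem Pt.rel_e (S : Sett e o κ) (Q : Pt e o κ U α β r) {αs βs rs αt βt rt : ℝ}
    (Qs : Pt e o κ (U.map (fs o)) αs βs rs) (Qt : Pt e o κ (U.map (ft o)) αt βt rt) :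
    β = α * αs + (1 - α) * αt := by
  have h1 : Tendsto (fun p : ℕ × ℕ => (o (o (p.1 - 1)) : ℝ) / (o (p.1 - 1) : ℕ)) U (𝓝 αs) :=
    tendsto_map'_iff.1 Qs.ho
  have h2 : Tendsto (fun p : ℕ × ℕ => (o (p.1 - 1 - o (p.1 - 1)) : ℝ) /
      (p.1 - 1 - o (p.1 - 1) : ℕ)) U (𝓝 αt) := tendsto_map'_iff.1 Qt.ho
  have h3 := (((Q.tends S).mul h1).add ((Q.tendt S).mul h2)).add Q.P.inv
  rw [add_zero] at h3
  refine tendsto_nhds_unique Q.he (h3.congr' ?_)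
  have hzero : ∀ x : ℕ, ((x : ℝ)) * ((o x : ℝ) / x) = o x := by
    intro x
    rcases Nat.eq_zero_or_pos x with h | h
    · subst h
      have := S.eo.o0
      simp [this]
    · have : (x : ℝ) ≠ 0 := by exact_mod_cast (by omega : x ≠ 0)
      field_simp
  filter_upwards [Q.P.ev 2] with p hp
  have h5 := S.eo.he p.1 hp
  have e1 : (p.1 : ℝ) ≠ 0 := by exact_mod_cast (by omega : p.1 ≠ 0)
  have h6 : (e p.1 : ℝ) = 1 + o (o (p.1 - 1)) + o (p.1 - 1 - o (p.1 - 1)) := by exact_mod_cast h5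
  have h7 := hzero (o (p.1 - 1))
  have h8 := hzero (p.1 - 1 - o (p.1 - 1))
  rw [h6, div_mul_eq_mul_div, div_mul_eq_mul_div, h7, h8]
  field_simp
  ring

end Pool.Agent.W_MP_c3a542_nt
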