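import Pool.Agent.W_MP_c3a542_nt.Table

/-!
The ratio of consecutive landmarks: `N k / N (k+1) → κ`, where `κ³ + κ = 1`.
-/

set_option autoImplicit false

open Filter Topology

namespace Pool.Agent.W_MP_c3a542_nt

theorem exists_kappa : ∃ κ : ℝ, κ ^ 3 = 1 - κ ∧ 0.6823 < κ ∧ κ < 0.6824 := by
  have hc : ContinuousOn (fun x : ℝ => x ^ 3 + x) (Set.Icc 0.6823 0.6824) := by fun_prop
  have h := intermediate_value_Icc (by norm_num : (0.6823 : ℝ) ≤ 0.6824) hc
  have h1 : (1 : ℝ) ∈ Set.Icc ((fun x : ℝ => x ^ 3 + x) 0.6823) ((fun x : ℝ => x ^ 3 + x) 0.6824) := by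
    constructor <;> norm_num
  obtain ⟨κ, ⟨h2, h3⟩, h4⟩ := h h1
  simp only at h4
  refine ⟨κ, by linarith, lt_of_le_of_ne h2 ?_, lt_of_le_of_ne h3 ?_⟩
  · rintro rfl; norm_num at h4
  · rintro rfl; norm_num at h4

theorem N_pos (k : ℕ) : 0 < N k := by
  induction k using Nat.strong_induction_on with
  | _ k ih =>
    match k with
    | 0 => exact (by decide : 0 < N 0)
    | 1 => exact (by decide : 0 < N 1)
    | 2 => exact (by decide : 0 < N 2)
    | k + 3 =>
      have := ih k (by omega)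
      rw [N]
      omega

theorem N_succ (k : ℕ) : N k + 1 ≤ N (k + 1) := by
  match k with
  | 0 => exact (by decide : N 0 + 1 ≤ N 1)
  | 1 => exact (by decide : N 1 + 1 ≤ N 2)
  | k + 2 =>
    have := N_pos k
    have h : N (k + 2 + 1) = N (k + 2) + N k + (if k % 2 = 0 then 4 else 2) := rfl
    rw [h]
    omega

theorem N_ge (k : ℕ) : k + 21 ≤ N k := by
  induction k with
  | zero => exact (by decide : 0 + 21 ≤ N 0)
  | succ k ih =>
    have := N_succ k
    omega

theorem N_mono {i j : ℕ} (h : i ≤ j) : N i ≤ N j := by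
  induction j, h using Nat.le_induction with
  | base => exact le_rfl
  | succ j _ ih =>
    have := N_succ j
    omega

theorem N_two (k : ℕ) : N (k + 1) ≤ 2 * N k := by
  match k with
  | 0 => exact (by decide : N 1 ≤ 2 * N 0)
  | 1 => exact (by decide : N 2 ≤ 2 * N 1)
  | k + 2 =>
    have h : N (k + 2 + 1) = N (k + 2) + N k + (if k % 2 = 0 then 4 else 2) := rfl
    have h1 := N_succ k
    have h2 := N_succ (k + 1)
    rw [h]
    match k with
    | 0 => exact (by decide : N (0 + 2) + N 0 + (if 0 % 2 = 0 then 4 else 2) ≤ 2 * N (0 + 2))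
    | k + 1 =>
      have h3 : N (k + 1 + 2) = N (k + 2) + N k + (if k % 2 = 0 then 4 else 2) := rfl
      have h4 := N_ge k
      have h5 := N_succ (k + 1)
      have h6 : N (k + 2) = N (k + 1 + 1) := rfl
      split_ifs at h3 ⊢ <;> omega

theorem tendsto_N : Tendsto (fun k => (N k : ℝ)) atTop atTop := by
  apply tendsto_atTop_mono (f := fun k : ℕ => (k : ℝ)) _ tendsto_natCast_atTop_atTop
  intro k
  have := N_ge k
  exact_mod_cast (by omega : k ≤ N k)

/-- The defect. -/
noncomputable def vv (κ : ℝ) (k : ℕ) : ℝ := κ * N (k + 1) - N k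

theorem vv_rec (κ : ℝ) (h : κ ^ 3 = 1 - κ) (k : ℕ) :
    ∃ c : ℝ, |c| ≤ 4 ∧ vv κ (k + 2) = - κ ^ 2 * vv κ (k + 1) - κ * vv κ k + κ * c := by
  refine ⟨(if k % 2 = 0 then 4 else 2), ?_, ?_⟩
  · split_ifs <;> norm_num
  · have h1 : (N (k + 3) : ℝ) = N (k + 2) + N k + (if k % 2 = 0 then 4 else 2) := by
      rw [N]
      push_cast
      rfl
    have h2 : vv κ (k + 2) = κ * N (k + 3) - N (k + 2) := rfl
    have h3 : vv κ (k + 1) = κ * N (k + 2) - N (k + 1) := rfl
    have h4 : vv κ k = κ * N (k + 1) - N k := rfl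
    rw [h2, h3, h4, h1]
    linear_combination (N (k + 2) : ℝ) * h

theorem vv_bdd (κ : ℝ) (h : κ ^ 3 = 1 - κ) (h1 : 0.6823 < κ) (h2 : κ < 0.6824) :
    ∃ B : ℝ, ∀ k, |vv κ k| ≤ B := by
  set B : ℝ := max (max |vv κ 0| |vv κ 1|) (max |vv κ 2| 40) with hB
  have b0 : |vv κ 0| ≤ B := le_trans (le_max_left _ _) (le_max_left _ _)
  have b1 : |vv κ 1| ≤ B := le_trans (le_max_right _ _) (le_max_left _ _)
  have b2 : |vv κ 2| ≤ B := le_trans (le_max_left _ _) (le_max_right _ _)
  have b3 : (40 : ℝ) ≤ B := le_trans (le_max_right _ _) (le_max_right _ _)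
  refine ⟨B, fun k => ?_⟩
  induction k using Nat.strong_induction_on with
  | _ k ih =>
    match k with
    | 0 => exact b0
    | 1 => exact b1
    | 2 => exact b2
    | k + 3 =>
      obtain ⟨c, hc, hr⟩ := vv_rec κ h (k + 1)
      obtain ⟨c', hc', hr'⟩ := vv_rec κ h k
      have i0 := ih k (by omega)
      have i1 := ih (k + 1) (by omega)
      have e1 : vv κ (k + 3) = -κ ^ 2 * vv κ (k + 1) + κ ^ 3 * vv κ k + (κ * c - κ ^ 3 * c') := by
        have h3 : vv κ (k + 3) = vv κ (k + 1 + 2) := rfl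
        have h4 : vv κ (k + 1 + 1) = vv κ (k + 2) := rfl
        rw [h3, hr, h4, hr']
        linear_combination (κ * vv κ (k + 1)) * h
      have hk2 : κ ^ 2 ≤ 0.4657 := by nlinarith
      have hk3 : κ ^ 3 ≤ 0.3177 := by linarith
      have hk20 : 0 ≤ κ ^ 2 := by positivity
      have hk30 : 0 ≤ κ ^ 3 := by positivity
      have a1 : |-κ ^ 2 * vv κ (k + 1)| ≤ 0.4657 * B := by
        rw [abs_mul, abs_neg, abs_of_nonneg hk20]
        exact mul_le_mul hk2 i1 (abs_nonneg _) (by norm_num)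
      have a2 : |κ ^ 3 * vv κ k| ≤ 0.3177 * B := by
        rw [abs_mul, abs_of_nonneg hk30]
        exact mul_le_mul hk3 i0 (abs_nonneg _) (by norm_num)
      have a3 : |κ * c - κ ^ 3 * c'| ≤ 0.6824 * 4 + 0.3177 * 4 := by
        refine (abs_sub _ _).trans (add_le_add ?_ ?_)
        · rw [abs_mul, abs_of_nonneg (by linarith)]
          exact mul_le_mul h2.le hc (abs_nonneg _) (by norm_num)
        · rw [abs_mul, abs_of_nonneg hk30]
          exact mul_le_mul hk3 hc' (abs_nonneg _) (by norm_num)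
      rw [e1]
      refine (abs_add_three _ _ _).trans ?_
      linarith

theorem tendsto_ratio (κ : ℝ) (h : κ ^ 3 = 1 - κ) (h1 : 0.6823 < κ) (h2 : κ < 0.6824) :
    Tendsto (fun k => (N k : ℝ) / N (k + 1)) atTop (𝓝 κ) := by
  obtain ⟨B, hB⟩ := vv_bdd κ h h1 h2
  have h3 : Tendsto (fun k : ℕ => B / (N (k + 1) : ℝ)) atTop (𝓝 0) :=
    Tendsto.div_atTop tendsto_const_nhds (tendsto_N.comp (tendsto_add_atTop_nat 1))
  rw [tendsto_iff_norm_sub_tendsto_zero]
  refine squeeze_zero (fun _ => norm_nonneg _) (fun k => ?_) h3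
  have hp : (0 : ℝ) < N (k + 1) := by exact_mod_cast N_pos (k + 1)
  have h4 : (N k : ℝ) / N (k + 1) - κ = - (vv κ k) / N (k + 1) := by
    unfold vv
    field_simp
    ring
  rw [h4, Real.norm_eq_abs, abs_div, abs_neg, abs_of_pos hp]
  exact div_le_div_of_nonneg_right (hB k) hp.le

end Pool.Agent.W_MP_c3a542_nt
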