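import Mathlib

/-!
The two sequences `e m = (b (2m) - 1) / 2` and `o m = (b (2m+1) - 1) / 2` of the parity-perturbed
Conway-Mallows sequence `b`: slow growth and the landmark induction.
-/

set_option autoImplicit false

namespace Pool.Agent.W_MP_c3a542_nt

/-- The coupled recursion satisfied by `e` and `o` (each step under the assumption that its
indices are in range). -/
structure EO (e o : ℕ → ℕ) : Prop where
  e1 : e 1 = 0
  o0 : o 0 = 0
  he' : ∀ m, 2 ≤ m → o (m - 1) ≤ m - 1 → e m = 1 + o (o (m - 1)) + o (m - 1 - o (m - 1))
  ho' : ∀ m, 1 ≤ m → e m + 1 ≤ m → o m = o (e m) + e (m - e m)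

namespace EO

variable {e o : ℕ → ℕ} (H : EO e o)

include H

theorem slow_aux (m : ℕ) :
    (∀ j, 1 ≤ j → j < m → e j ≤ e (j + 1) ∧ e (j + 1) ≤ e j + 1) ∧
    (∀ j, j < m → o j ≤ o (j + 1) ∧ o (j + 1) ≤ o j + 1) := by
  induction m with
  | zero => exact ⟨fun j _ h => absurd h (Nat.not_lt_zero _), fun j h => absurd h (Nat.not_lt_zero _)⟩
  | succ m ih =>
    obtain ⟨ihe, iho⟩ := ih
    -- bounds
    have bo : ∀ j, j ≤ m → o j ≤ j := by
      intro j
      induction j with
      | zero => intro _; rw [H.o0]
      | succ j ihj =>
        intro hj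
        have h1 := ihj (by omega)
        have h2 := (iho j (by omega)).2
        omega
    have be : ∀ j, 1 ≤ j → j ≤ m → e j + 1 ≤ j := by
      intro j
      induction j with
      | zero => intro h; omega
      | succ j ihj =>
        intro _ hj
        rcases Nat.eq_zero_or_pos j with h0 | h0
        · subst h0
          have := H.e1
          simp only [Nat.zero_add]
          omega
        · have h1 := ihj h0 (by omega)
          have h2 := (ihe j h0 (by omega)).2
          omega
    -- the new step for `e`
    have hem : 1 ≤ m → e m ≤ e (m + 1) ∧ e (m + 1) ≤ e m + 1 := by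
      intro hm
      rcases Nat.lt_or_ge m 2 with h2 | h2
      · have hm1 : m = 1 := by omega
        subst hm1
        have h3 := H.he' 2 le_rfl (bo 1 le_rfl)
        have h4 := H.ho' 1 le_rfl (by rw [H.e1])
        rw [H.e1] at h4
        simp only [H.o0, Nat.sub_zero, H.e1, Nat.add_zero] at h4
        have h5 : (2 : ℕ) - 1 = 1 := rfl
        rw [h5, h4, H.o0] at h3
        simp only [Nat.sub_zero, h4] at h3
        rw [H.e1]
        have h6 : e (1 + 1) = 1 := by
          have : (1 + 1 : ℕ) = 2 := rfl
          rw [this]; omega
        omega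
      · have h3 := H.he' m h2 (bo (m - 1) (by omega))
        have h4 := H.he' (m + 1) (by omega) (bo m le_rfl)
        have h5 := iho (m - 1) (by omega)
        have h6 : m - 1 + 1 = m := by omega
        rw [h6] at h5
        have h7 : m + 1 - 1 = m := by omega
        rw [h7] at h4
        have h8 := bo (m - 1) (by omega)
        rcases Nat.lt_or_ge (o (m - 1)) (o m) with h9 | h9
        · have h10 : o m = o (m - 1) + 1 := by omega
          have h11 : m - o m = m - 1 - o (m - 1) := by omega
          rw [h11, h10] at h4
          have h12 := iho (o (m - 1)) (by omega)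
          omega
        · have h10 : o m = o (m - 1) := by omega
          have h11 : m - o m = (m - 1 - o (m - 1)) + 1 := by omega
          rw [h11, h10] at h4
          have h12 := iho (m - 1 - o (m - 1)) (by omega)
          omega
    have hem' : ∀ j, 1 ≤ j → j < m + 1 → e j ≤ e (j + 1) ∧ e (j + 1) ≤ e j + 1 := by
      intro j h1 h2
      rcases Nat.lt_or_ge j m with h3 | h3
      · exact ihe j h1 h3
      · have : j = m := by omega
        subst this
        exact hem h1
    refine ⟨hem', ?_⟩
    intro j hj
    rcases Nat.lt_or_ge j m with h3 | h3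
    · exact iho j h3
    · have hjm : j = m := by omega
      subst hjm
      rcases Nat.eq_zero_or_pos j with h0 | h0
      · subst h0
        have h4 := H.ho' 1 le_rfl (by rw [H.e1])
        rw [H.e1] at h4
        simp only [H.o0, Nat.sub_zero, H.e1, Nat.add_zero] at h4
        rw [H.o0]
        have h5 : o (0 + 1) = 0 := h4
        omega
      · have h6 := hem h0
        have h7 := be j h0 le_rfl
        have h4 := H.ho' j h0 h7
        have h5 := H.ho' (j + 1) (by omega) (by omega)
        rcases Nat.lt_or_ge (e j) (e (j + 1)) with h9 | h9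
        · have h10 : e (j + 1) = e j + 1 := by omega
          have h11 : j + 1 - e (j + 1) = j - e j := by omega
          rw [h11, h10] at h5
          have h12 := iho (e j) (by omega)
          omega
        · have h10 : e (j + 1) = e j := by omega
          have h11 : j + 1 - e (j + 1) = (j - e j) + 1 := by omega
          rw [h11, h10] at h5
          have h12 := hem' (j - e j) (by omega) (by omega)
          omega

theorem e_step (j : ℕ) (h : 1 ≤ j) : e j ≤ e (j + 1) ∧ e (j + 1) ≤ e j + 1 :=
  (H.slow_aux (j + 1)).1 j h (Nat.lt_succ_self j)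

theorem o_step (j : ℕ) : o j ≤ o (j + 1) ∧ o (j + 1) ≤ o j + 1 :=
  (H.slow_aux (j + 1)).2 j (Nat.lt_succ_self j)

theorem o_mono {i j : ℕ} (h : i ≤ j) : o i ≤ o j ∧ i + o j ≤ j + o i := by
  induction j, h using Nat.le_induction with
  | base => exact ⟨le_rfl, le_rfl⟩
  | succ j _ ih =>
    have := H.o_step j
    omega

theorem e_mono {i j : ℕ} (h0 : 1 ≤ i) (h : i ≤ j) : e i ≤ e j ∧ i + e j ≤ j + e i := by
  induction j, h using Nat.le_induction with
  | base => exact ⟨le_rfl, le_rfl⟩
  | succ j hj ih =>
    have := H.e_step j (by omega)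
    omega

theorem o_le (j : ℕ) : o j ≤ j := by
  have := (H.o_mono (Nat.zero_le j)).2
  rw [H.o0] at this
  omega

theorem e_lt (j : ℕ) (h : 1 ≤ j) : e j + 1 ≤ j := by
  have := (H.e_mono le_rfl h).2
  rw [H.e1] at this
  omega

theorem he (m : ℕ) (h : 2 ≤ m) : e m = 1 + o (o (m - 1)) + o (m - 1 - o (m - 1)) :=
  H.he' m h (H.o_le _)

theorem ho (m : ℕ) (h : 1 ≤ m) : o m = o (e m) + e (m - e m) :=
  H.ho' m h (H.e_lt m h)

end EO

/-- Two pairs satisfying the recursion agree. -/
theorem eo_unique {e o e' o' : ℕ → ℕ} (H : EO e o) (H' : EO e' o') (m : ℕ) :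
    ∀ j, j ≤ m → o j = o' j ∧ (1 ≤ j → e j = e' j) := by
  induction m with
  | zero =>
    intro j hj
    have : j = 0 := by omega
    subst this
    exact ⟨by rw [H.o0, H'.o0], fun h => by omega⟩
  | succ m ih =>
    intro j hj
    rcases Nat.lt_or_ge j (m + 1) with h | h
    · exact ih j (by omega)
    · have hjm : j = m + 1 := by omega
      subst hjm
      have hE : e (m + 1) = e' (m + 1) := by
        rcases Nat.eq_zero_or_pos m with h0 | h0
        · subst h0
          have h1 := H.e1
          have h2 := H'.e1
          simp only [Nat.zero_add]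
          omega
        · have h3 := H.he (m + 1) (by omega)
          have h4 := H'.he (m + 1) (by omega)
          have h5 : m + 1 - 1 = m := by omega
          rw [h5] at h3 h4
          have h6 := (ih m le_rfl).1
          have h7 := H.o_le m
          rw [← h6] at h4
          rw [h3, h4, (ih (o m) h7).1, (ih (m - o m) (by omega)).1]
      have h3 := H.ho (m + 1) (by omega)
      have h4 := H'.ho (m + 1) (by omega)
      have h5 := H.e_lt (m + 1) (by omega)
      rw [← hE] at h4
      refine ⟨?_, fun _ => hE⟩
      rw [h3, h4, (ih (e (m + 1)) (by omega)).1]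
      congr 1
      rcases Nat.eq_zero_or_pos (e (m + 1)) with h0 | h0
      · rw [h0]
        exact hE
      · exact (ih (m + 1 - e (m + 1)) (by omega)).2 (by omega)

end Pool.Agent.W_MP_c3a542_nt
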