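import Pool.Agent.W_MP_c3a542_nt.Landmark

/-!
Existence of the pair `e, o`, by a table that is also used to compute the first values.
-/

set_option autoImplicit false

namespace Pool.Agent.W_MP_c3a542_nt

/-- `tab m` is the list `[(e m, o m), …, (e 0, o 0)]`. -/
def tab : ℕ → List (ℕ × ℕ)
  | 0 => [(0, 0)]
  | m + 1 =>
    let l := tab m
    let s := (l.getD 0 (0, 0)).2
    let x := if m = 0 then 0 else 1 + (l.getD (m - s) (0, 0)).2 + (l.getD s (0, 0)).2
    let y := (l.getD (m - x) (0, 0)).2 + (if x = 0 then x else (l.getD (x - 1) (0, 0)).1)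
    (x, y) :: l

/-- The sequence `e`. -/
def eC (m : ℕ) : ℕ := ((tab m).getD 0 (0, 0)).1

/-- The sequence `o`. -/
def oC (m : ℕ) : ℕ := ((tab m).getD 0 (0, 0)).2

theorem tab_getD (m j : ℕ) (h : j ≤ m) : (tab m).getD (m - j) (0, 0) = (eC j, oC j) := by
  induction m with
  | zero =>
    have : j = 0 := by omega
    subst this
    rfl
  | succ m ih =>
    rcases Nat.lt_or_ge j (m + 1) with h1 | h1
    · have h2 : m + 1 - j = (m - j) + 1 := by omega
      rw [h2, tab, List.getD_cons_succ]
      exact ih (by omega)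
    · have h2 : j = m + 1 := by omega
      subst h2
      rw [Nat.sub_self]
      rfl

theorem tab_getD_o (m j : ℕ) (h : j ≤ m) : ((tab m).getD (m - j) (0, 0)).2 = oC j := by
  rw [tab_getD m j h]

theorem tab_getD_e (m j : ℕ) (h : j ≤ m) : ((tab m).getD (m - j) (0, 0)).1 = eC j := by
  rw [tab_getD m j h]

theorem eC_succ (m : ℕ) : eC (m + 1) =
    if m = 0 then 0 else 1 + ((tab m).getD (m - oC m) (0, 0)).2 + ((tab m).getD (oC m) (0, 0)).2 :=
  rfl

theorem oC_succ (m : ℕ) : oC (m + 1) = ((tab m).getD (m - eC (m + 1)) (0, 0)).2 +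
    (if eC (m + 1) = 0 then eC (m + 1) else ((tab m).getD (eC (m + 1) - 1) (0, 0)).1) :=
  rfl

theorem eo_C : EO eC oC where
  e1 := rfl
  o0 := rfl
  he' := by
    intro m hm h
    obtain ⟨n, rfl⟩ : ∃ n, m = n + 1 := ⟨m - 1, by omega⟩
    have h1 : n + 1 - 1 = n := by omega
    rw [h1] at h ⊢
    rw [eC_succ, if_neg (by omega), tab_getD_o n (oC n) h]
    have h2 : ((tab n).getD (oC n) (0, 0)).2 = oC (n - oC n) := by
      have h3 : oC n = n - (n - oC n) := by omega
      conv_lhs => rw [h3]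
      exact tab_getD_o n (n - oC n) (by omega)
    rw [h2]
  ho' := by
    intro m hm h
    obtain ⟨n, rfl⟩ : ∃ n, m = n + 1 := ⟨m - 1, by omega⟩
    rw [oC_succ, tab_getD_o n (eC (n + 1)) (by omega)]
    congr 1
    split_ifs with h0
    · rw [h0]
      exact h0.symm
    · have h3 : eC (n + 1) - 1 = n - (n + 1 - eC (n + 1)) := by omega
      rw [h3]
      exact tab_getD_e n _ (by omega)

theorem fctC0 : Fct eC oC 0 := by
  refine ⟨fun _ => ?_, fun h => absurd h (by decide)⟩
  constructor <;> decide +kernel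

theorem fctC1 : Fct eC oC 1 := by
  refine ⟨fun h => absurd h (by decide), fun _ => ?_⟩
  constructor <;> decide +kernel

theorem fctC2 : Fct eC oC 2 := by
  refine ⟨fun _ => ?_, fun h => absurd h (by decide)⟩
  constructor <;> decide +kernel

/-- The values of `e` at the landmarks. -/
theorem eC_landmark (k : ℕ) : N k + 1 ≤ eC (N (k + 3)) ∧ eC (N (k + 3)) ≤ N k + 2 :=
  e_landmark eo_C fctC0 fctC1 fctC2 k

end Pool.Agent.W_MP_c3a542_nt
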